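import Pool.Agent.Work.MP_bec1e1_lv_helper15.LUInterface

/-!
# Block LU_DPIU: data processing on the space (pattern, contents)
-/

set_option autoImplicit false
set_option maxHeartbeats 400000

open Filter Topology
open scoped BigOperators

namespace Pool.Agent.LCSV

open Pool.Agent.LCSE

noncomputable section

/-- total mass of a product of weights -/
theorem dp_prod_one {ι C : Type} [Fintype ι] [DecidableEq ι] [Fintype C] (w : ι → C → ℝ)
    (hw : ∀ i, ∑ c, w i c = 1) : ∑ c : ι → C, ∏ i, w i (c i) = 1 := by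
  have h := Finset.prod_univ_sum (fun _ : ι => (Finset.univ : Finset C)) (fun i c => w i c)
  rw [Fintype.piFinset_univ] at h
  rw [← h]
  exact Finset.prod_eq_one fun i _ => hw i

/-- marginalisation -/
theorem dp_marg {ι C : Type} [Fintype ι] [DecidableEq ι] [Fintype C] (w : ι → C → ℝ)
    (p : ι → Prop) [DecidablePred p] (hw : ∀ i, ¬ p i → ∑ c, w i c = 1)
    (F : ({i // p i} → C) → ℝ) :
    PW w (fun c => F (fun i => c i.1)) =
      ∑ a : {i // p i} → C, (∏ i, w i.1 (a i)) * F a := by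
  unfold PW
  rw [← (Equiv.piEquivPiSubtypeProd p (fun _ => C)).symm.sum_comp, Fintype.sum_prod_type]
  refine Finset.sum_congr rfl fun a _ => ?_
  have h1 : ∀ b : {i // ¬ p i} → C,
      (∏ i, w i ((Equiv.piEquivPiSubtypeProd p (fun _ => C)).symm (a, b) i)) *
        F (fun i => (Equiv.piEquivPiSubtypeProd p (fun _ => C)).symm (a, b) i.1) =
      ((∏ i, w i.1 (a i)) * F a) * ∏ i : {i // ¬ p i}, w i.1 (b i) := by
    intro b
    have h2 : ∀ i : {i // p i},
        (Equiv.piEquivPiSubtypeProd p (fun _ => C)).symm (a, b) i.1 = a i := by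
      intro i
      have := congrFun (congrArg Prod.fst
        ((Equiv.piEquivPiSubtypeProd p (fun _ => C)).apply_symm_apply (a, b))) i
      exact this
    have h3 : ∀ i : {i // ¬ p i},
        (Equiv.piEquivPiSubtypeProd p (fun _ => C)).symm (a, b) i.1 = b i := by
      intro i
      have := congrFun (congrArg Prod.snd
        ((Equiv.piEquivPiSubtypeProd p (fun _ => C)).apply_symm_apply (a, b))) i
      exact this
    rw [← Fintype.prod_subtype_mul_prod_subtype p]
    have e1 : (fun i : {i // p i} =>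
        (Equiv.piEquivPiSubtypeProd p (fun _ => C)).symm (a, b) i.1) = a := funext h2
    rw [e1]
    have e2 : (∏ i : {i // p i}, w i.1
        ((Equiv.piEquivPiSubtypeProd p (fun _ => C)).symm (a, b) i.1)) = ∏ i, w i.1 (a i) :=
      Finset.prod_congr rfl fun i _ => by rw [h2 i]
    have e3 : (∏ i : {i // ¬ p i}, w i.1
        ((Equiv.piEquivPiSubtypeProd p (fun _ => C)).symm (a, b) i.1)) = ∏ i, w i.1 (b i) :=
      Finset.prod_congr rfl fun i _ => by rw [h3 i]
    rw [e2, e3]
    ring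
  rw [Finset.sum_congr rfl (fun b _ => h1 b), ← Finset.mul_sum]
  rw [dp_prod_one (fun i : {i // ¬ p i} => w i.1) (fun i => hw i.1 i.2), mul_one]

/-- a function of the coordinates in `Λ` does not see the other weights -/
theorem dp_dep {ι C : Type} [Fintype ι] [DecidableEq ι] [Fintype C] [Nonempty C]
    (w w' : ι → C → ℝ) (Λ : Finset ι) (hw : ∀ i, ∑ c, w i c = 1) (hw' : ∀ i, ∑ c, w' i c = 1)
    (hΛ : ∀ i ∈ Λ, w i = w' i) (A : (ι → C) → Prop) (hA : DepOn Λ A) :
    PW w (fun c => ind (A c)) = PW w' (fun c => ind (A c)) := by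
  classical
  obtain ⟨c₀⟩ := (inferInstance : Nonempty C)
  set F : ({i // i ∈ Λ} → C) → ℝ := fun a =>
    ind (A (fun i => if h : i ∈ Λ then a ⟨i, h⟩ else c₀)) with hF
  have h1 : (fun c : ι → C => ind (A c)) = fun c => F (fun i => c i.1) := by
    funext c
    simp only [hF]
    have : A c ↔ A (fun i => if h : i ∈ Λ then c i else c₀) := by
      apply hA
      intro i hi
      simp [hi]
    unfold ind
    simp only [this]
  rw [h1, dp_marg w (fun i => i ∈ Λ) (fun i _ => hw i) F,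
    dp_marg w' (fun i => i ∈ Λ) (fun i _ => hw' i) F]
  refine Finset.sum_congr rfl fun a _ => ?_
  congr 1
  refine Finset.prod_congr rfl fun i _ => ?_
  rw [hΛ i.1 i.2]

/-- mean of a function of one coordinate -/
theorem dp_one {ι C : Type} [Fintype ι] [DecidableEq ι] [Fintype C] (w : ι → C → ℝ)
    (hw : ∀ i, ∑ c, w i c = 1) (j : ι) (g : C → ℝ) :
    ∑ c : ι → C, (∏ i, w i (c i)) * g (c j) = ∑ c, w j c * g c := by
  classical
  have h := Finset.prod_univ_sum (fun _ : ι => (Finset.univ : Finset C))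
    (fun i c => w i c * (if i = j then g c else 1))
  rw [Fintype.piFinset_univ] at h
  have h2 : ∀ c : ι → C, (∏ i, w i (c i) * (if i = j then g (c i) else 1)) =
      (∏ i, w i (c i)) * g (c j) := by
    intro c
    rw [Finset.prod_mul_distrib]
    congr 1
    rw [Finset.prod_ite_eq' Finset.univ j (fun i => g (c i))]
    simp
  rw [Finset.sum_congr rfl (fun c _ => h2 c)] at h
  rw [← h]
  have h3 : ∀ i, (∑ c, w i c * (if i = j then g c else 1)) =
      if i = j then (∑ c, w j c * g c) else 1 := by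
    intro i
    by_cases hij : i = j
    · subst hij; simp
    · simp [hij, hw i]
  rw [Finset.prod_congr rfl (fun i _ => h3 i), Finset.prod_ite_eq' Finset.univ j]
  simp

/-- chain rule -/
theorem dp_chain {ι C : Type} [Fintype ι] [DecidableEq ι] [Fintype C] (w : ι → C → ℝ)
    (S : C → ℝ) (hw : ∀ i, ∑ c, w i c = 1) (hS : ∀ c, 0 < S c) :
    ∑ c : ι → C, (∏ i, w i (c i)) * Real.log ((∏ i, w i (c i)) / ∏ i, S (c i)) =
      ∑ j, KL (w j) S := by
  have h1 : ∀ c : ι → C, (∏ i, w i (c i)) * Real.log ((∏ i, w i (c i)) / ∏ i, S (c i)) =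
      ∑ j, (∏ i, w i (c i)) * Real.log (w j (c j) / S (c j)) := by
    intro c
    by_cases h : (∏ i, w i (c i)) = 0
    · rw [h]; simp
    · have h2 : ∀ i, w i (c i) ≠ 0 := fun i => (Finset.prod_ne_zero_iff.1 h) i (Finset.mem_univ i)
      rw [← Finset.prod_div_distrib, Real.log_prod fun i _ =>
        div_ne_zero (h2 i) (hS (c i)).ne', Finset.mul_sum]
  rw [Finset.sum_congr rfl (fun c _ => h1 c), Finset.sum_comm]
  refine Finset.sum_congr rfl fun j _ => ?_
  exact dp_one w hw j (fun c => Real.log (w j c / S c))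

/-- data processing without positivity -/
theorem dp_gen (hD : Stmt_DPI) (Ω : Type) [Fintype Ω] (P Q : Ω → ℝ) (A : Ω → Prop) (D : ℝ)
    (hP : ∀ i, 0 ≤ P i) (hQ : ∀ i, 0 ≤ Q i) (hac : ∀ i, P i = 0 → Q i = 0)
    (hP1 : ∑ i, P i = 1) (hQ1 : ∑ i, Q i = 1) (hent : (∑ i, Q i * Real.log (Q i / P i)) ≤ D)
    (hA : 0 < ∑ i, Q i * ind (A i)) :
    Real.exp (-((D + Real.log 2) / ∑ i, Q i * ind (A i))) ≤ ∑ i, P i * ind (A i) := by
  classical
  have hsub : ∀ f : Ω → ℝ, (∀ i, P i = 0 → f i = 0) → ∑ i : {i // 0 < P i}, f i.1 = ∑ i, f i := by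
    intro f hf
    have h1 : ∑ i ∈ Finset.univ.filter (fun i => 0 < P i), f i = ∑ i, f i :=
      Finset.sum_filter_of_ne fun i _ hi => lt_of_le_of_ne (hP i) fun h => hi (hf i h.symm)
    rw [← h1]
    exact (Finset.sum_subtype _ (fun i => by simp) f).symm
  have key := hD {i // 0 < P i} (fun i => P i.1) (fun i => Q i.1) (fun i => A i.1) D
    (fun i => i.2) (fun i => hQ i.1)
    (by rw [hsub P fun i h => h]; exact hP1)
    (by rw [hsub Q hac]; exact hQ1)
    (by rw [hsub (fun i => Q i * Real.log (Q i / P i)) (fun i h => by simp [hac i h])]; exact hent)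
  have e1 : (∑ i : {i // 0 < P i}, if A i.1 then Q i.1 else 0) = ∑ i, Q i * ind (A i) := by
    rw [← hsub (fun i => Q i * ind (A i)) (fun i h => by simp [hac i h])]
    refine Finset.sum_congr rfl fun i _ => ?_
    unfold ind
    split_ifs <;> simp
  have e2 : (∑ i : {i // 0 < P i}, if A i.1 then P i.1 else 0) = ∑ i, P i * ind (A i) := by
    rw [← hsub (fun i => P i * ind (A i)) (fun i h => by simp [h])]
    refine Finset.sum_congr rfl fun i _ => ?_
    unfold ind
    split_ifs <;> simp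
  rw [e1, e2] at key
  exact key hA

/-- triple sums -/
theorem dp_triple {Ω A B : Type} [Fintype Ω] [Fintype A] [Fintype B] (f : Ω → A → B → ℝ) :
    ∑ x : Ω × A × B, f x.1 x.2.1 x.2.2 = ∑ ω, ∑ a, ∑ b, f ω a b := by
  rw [Fintype.sum_prod_type]
  refine Finset.sum_congr rfl fun ω _ => ?_
  rw [Fintype.sum_prod_type]

theorem dpiu_of (hD : Stmt_DPI) : Stmt_DPIU := by
  classical
  intro k n₁ T R θ Γ D a n₀ b₀ C Ω _ _ _ U V X J DV hθ0 hθ1 hX hJ hDV hJ0
  have hS0 : ∀ c, 0 < U.S c := fun c => lt_of_lt_of_le (Real.exp_pos _) (U.S_low c)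
  have hC : Nonempty C := by
    by_contra hcon
    rw [not_nonempty_iff] at hcon
    have := U.S_sum
    rw [Finset.univ_eq_empty, Finset.sum_empty] at this
    exact zero_ne_one this
  have hbw : ∀ b, 0 < bw θ b := by
    intro b; unfold bw; split_ifs <;> linarith
  have hbw1 : ∑ b, bw θ b = 1 := by
    unfold bw; simp
  set w : Ω → (Fin T → Bool) → Fin T × Fin R → C → ℝ := fun ω bs j =>
    if bs j.1 = true then U.κ ω V j else U.S with hw
  have hw0 : ∀ ω bs j c, 0 ≤ w ω bs j c := by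
    intro ω bs j c
    simp only [hw]
    split_ifs
    · exact U.κ_nonneg _ _ _ _
    · exact (hS0 c).le
  have hw1 : ∀ ω bs j, ∑ c, w ω bs j c = 1 := by
    intro ω bs j
    simp only [hw]
    split_ifs
    · exact U.κ_sum _ _ _
    · exact U.S_sum
  set P' : Ω × (Fin T → Bool) × (Fin T × Fin R → C) → ℝ := fun x =>
    U.P x.1 * ((∏ i, bw θ (x.2.1 i)) * ∏ j, U.S (x.2.2 j)) with hP'
  set Q' : Ω × (Fin T → Bool) × (Fin T × Fin R → C) → ℝ := fun x =>
    U.P x.1 * ((∏ i, bw θ (x.2.1 i)) * ∏ j, w x.1 x.2.1 j (x.2.2 j)) with hQ'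
  have hprodb : ∀ bs : Fin T → Bool, 0 < ∏ i, bw θ (bs i) := fun bs =>
    Finset.prod_pos fun i _ => hbw _
  have hprodS : ∀ c : Fin T × Fin R → C, 0 < ∏ j, U.S (c j) := fun c =>
    Finset.prod_pos fun i _ => hS0 _
  have hprodw : ∀ ω bs (c : Fin T × Fin R → C), 0 ≤ ∏ j, w ω bs j (c j) := fun ω bs c =>
    Finset.prod_nonneg fun j _ => hw0 _ _ _ _
  have hP0 : ∀ x, 0 ≤ P' x := fun x =>
    mul_nonneg (U.P_nonneg _) (mul_nonneg (hprodb _).le (hprodS _).le)
  have hQ0 : ∀ x, 0 ≤ Q' x := fun x =>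
    mul_nonneg (U.P_nonneg _) (mul_nonneg (hprodb _).le (hprodw _ _ _))
  have hac : ∀ x, P' x = 0 → Q' x = 0 := by
    intro x hx
    simp only [hP'] at hx
    rcases mul_eq_zero.1 hx with h | h
    · simp only [hQ']; rw [h, zero_mul]
    · exact absurd h (mul_pos (hprodb _) (hprodS _)).ne'
  have hsum1 : ∀ W : Ω → (Fin T → Bool) → Fin T × Fin R → C → ℝ,
      (∀ ω bs j, ∑ c, W ω bs j c = 1) →
      ∑ x : Ω × (Fin T → Bool) × (Fin T × Fin R → C),
        U.P x.1 * ((∏ i, bw θ (x.2.1 i)) * ∏ j, W x.1 x.2.1 j (x.2.2 j)) = 1 := by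
    intro W hW
    rw [dp_triple (fun ω bs (c : Fin T × Fin R → C) =>
      U.P ω * ((∏ i, bw θ (bs i)) * ∏ j, W ω bs j (c j)))]
    have h1 : ∀ ω, (∑ bs : Fin T → Bool, ∑ c : Fin T × Fin R → C,
        U.P ω * ((∏ i, bw θ (bs i)) * ∏ j, W ω bs j (c j))) = U.P ω := by
      intro ω
      have h2 : ∀ bs : Fin T → Bool, (∑ c : Fin T × Fin R → C,
          U.P ω * ((∏ i, bw θ (bs i)) * ∏ j, W ω bs j (c j))) =
          U.P ω * ∏ i, bw θ (bs i) := by
        intro bs
        rw [← Finset.mul_sum, ← Finset.mul_sum, dp_prod_one _ (hW ω bs), mul_one]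
      rw [Finset.sum_congr rfl (fun bs _ => h2 bs), ← Finset.mul_sum,
        dp_prod_one (fun _ : Fin T => bw θ) (fun _ => hbw1), mul_one]
    rw [Finset.sum_congr rfl (fun ω _ => h1 ω)]
    exact U.P_sum
  have hP1 : ∑ x, P' x = 1 := hsum1 (fun _ _ _ => U.S) (fun _ _ _ => U.S_sum)
  have hQ1 : ∑ x, Q' x = 1 := hsum1 w hw1
  -- expectations
  have hQA : ∑ x, Q' x * ind (X x.1 x.2.1 x.2.2) = J := by
    rw [← hJ]
    have h0 := dp_triple (fun ω bs (c : Fin T × Fin R → C) =>
      U.P ω * ((∏ i, bw θ (bs i)) * ∏ j, w ω bs j (c j)) * ind (X ω bs c))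
    simp only [hQ']
    rw [h0]
    refine Finset.sum_congr rfl fun ω _ => ?_
    rw [PW, Finset.mul_sum]
    refine Finset.sum_congr rfl fun bs _ => ?_
    have h1 : PW (U.κ ω V) (fun c => ind (X ω bs c)) = PW (w ω bs) (fun c => ind (X ω bs c)) := by
      refine dp_dep _ _ (labB R bs) (U.κ_sum ω V) (hw1 ω bs) ?_ _ (hX ω bs)
      intro j hj
      rw [labB, Finset.mem_filter] at hj
      simp only [hw]
      rw [if_pos hj.2]
    rw [h1, PW, Finset.mul_sum, Finset.mul_sum]
    refine Finset.sum_congr rfl fun c _ => ?_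
    ring
  have hPA : ∑ x, P' x * ind (X x.1 x.2.1 x.2.2) =
      ∑ ω, U.P ω * PW (fun _ : Fin T => bw θ) fun bs => PW (fun _ => U.S) fun c =>
        ind (X ω bs c) := by
    have h0 := dp_triple (fun ω bs (c : Fin T × Fin R → C) =>
      U.P ω * ((∏ i, bw θ (bs i)) * ∏ j, U.S (c j)) * ind (X ω bs c))
    simp only [hP']
    rw [h0]
    refine Finset.sum_congr rfl fun ω _ => ?_
    rw [PW, Finset.mul_sum]
    refine Finset.sum_congr rfl fun bs _ => ?_
    rw [PW, Finset.mul_sum, Finset.mul_sum]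
    refine Finset.sum_congr rfl fun c _ => ?_
    ring
  have hent : ∑ x, Q' x * Real.log (Q' x / P' x) ≤ DV := by
    refine le_trans (le_of_eq ?_) hDV
    have h0 := dp_triple (fun ω bs (c : Fin T × Fin R → C) =>
      U.P ω * ((∏ i, bw θ (bs i)) * ∏ j, w ω bs j (c j)) *
        Real.log (U.P ω * ((∏ i, bw θ (bs i)) * ∏ j, w ω bs j (c j)) /
          (U.P ω * ((∏ i, bw θ (bs i)) * ∏ j, U.S (c j)))))
    simp only [hP', hQ']
    rw [h0]
    refine Finset.sum_congr rfl fun ω _ => ?_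
    rw [PW, Finset.mul_sum]
    refine Finset.sum_congr rfl fun bs _ => ?_
    by_cases hPω : U.P ω = 0
    · rw [hPω]; simp
    · have h1 : ∀ c : Fin T × Fin R → C,
          U.P ω * ((∏ i, bw θ (bs i)) * ∏ j, w ω bs j (c j)) *
          Real.log (U.P ω * ((∏ i, bw θ (bs i)) * ∏ j, w ω bs j (c j)) /
          (U.P ω * ((∏ i, bw θ (bs i)) * ∏ j, U.S (c j)))) =
          U.P ω * (∏ i, bw θ (bs i)) * ((∏ j, w ω bs j (c j)) *
            Real.log ((∏ j, w ω bs j (c j)) / ∏ j, U.S (c j))) := by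
        intro c
        rw [mul_div_mul_left _ _ hPω, mul_div_mul_left _ _ (hprodb bs).ne']
        ring
      rw [Finset.sum_congr rfl (fun c _ => h1 c), ← Finset.mul_sum,
        dp_chain (w ω bs) U.S (hw1 ω bs) hS0]
      have h2 : ∀ j : Fin T × Fin R, KL (w ω bs j) U.S =
          ind (bs j.1 = true) * KL (U.κ ω V j) U.S := by
        intro j
        simp only [hw]
        by_cases hb : bs j.1 = true
        · rw [if_pos hb]
          unfold ind; rw [if_pos hb, one_mul]
        · rw [if_neg hb]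
          unfold ind; rw [if_neg hb, zero_mul]
          unfold KL
          refine Finset.sum_eq_zero fun c _ => ?_
          rw [div_self (hS0 c).ne', Real.log_one, mul_zero]
      rw [Finset.sum_congr rfl (fun j _ => h2 j)]
      ring
  have key := dp_gen hD _ P' Q' (fun x => X x.1 x.2.1 x.2.2) DV hP0 hQ0 hac hP1 hQ1 hent
    (by rw [hQA]; exact hJ0)
  rw [hQA, hPA] at key
  exact key

end

end Pool.Agent.LCSV
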