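import Pool.Agent.Work.MP_bec1e1_lv_helper15.LUInterface

/-!
# Block LU_KERR: product kernels
-/

set_option autoImplicit false
set_option maxHeartbeats 400000

open Filter Topology
open scoped BigOperators

namespace Pool.Agent.LCSV

open Pool.Agent.LCSE

noncomputable section

variable {k : ℕ}

theorem kerr_marg_low (hk : 0 < k) {n : ℕ} {z δ b : ℝ} {q : List (Fin k) → List (Fin k) → ℝ}
    (hK : KerData k n z δ b q) (x : List (Fin k)) (hx : x.length = n) :
    Real.exp (-b) ≤ marg n q x := const_le_Ex hk fun v hv => hK.low v x hv hx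

theorem kerr_marg_up (hk : 0 < k) {n : ℕ} {z δ b : ℝ} {q : List (Fin k) → List (Fin k) → ℝ}
    (hK : KerData k n z δ b q) (x : List (Fin k)) (hx : x.length = n) :
    marg n q x ≤ Real.exp b := Ex_le_const hk fun v hv => hK.up v x hv hx

theorem kerr_marg_one (hk : 0 < k) {n : ℕ} {z δ b : ℝ} {q : List (Fin k) → List (Fin k) → ℝ}
    (hK : KerData k n z δ b q) : Ex k n (marg n q) = 1 := by
  unfold marg
  rw [Ex_comm]
  rw [Ex_congr (fun v hv => hK.one v hv)]
  exact Ex_const hk n 1

theorem kerr_take (n R : ℕ) (x : List (Fin k)) (hx : x.length = (R + 1) * n) :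
    (x.take n).length = n ∧ (x.drop n).length = R * n := by
  have h : (R + 1) * n = n + R * n := by ring
  rw [List.length_take, List.length_drop, hx, h]
  constructor
  · exact min_eq_left (by omega)
  · omega

theorem kerr_dens (hk : 0 < k) {n : ℕ} {z δ b : ℝ} {q : List (Fin k) → List (Fin k) → ℝ}
    (hK : KerData k n z δ b q) : ∀ (R : ℕ) (v : List (Fin k)),
    IsDens k (R * n) (kernR n q R v) := by
  intro R
  induction R with
  | zero =>
    intro v
    refine ⟨fun w _ => ?_, ?_⟩
    · simp [kernR]
    · have : kernR n q 0 v = fun _ => (1 : ℝ) := rfl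
      rw [this]; exact Ex_const hk _ 1
  | succ R ih =>
    intro v
    refine ⟨fun w hw => ?_, ?_⟩
    · obtain ⟨h1, h2⟩ := kerr_take n R w hw
      simp only [kernR]
      refine mul_nonneg ?_ ((ih (v.drop n)).nonneg _ h2)
      split_ifs with h
      · exact (Real.exp_pos _).le.trans (hK.low _ _ (by rw [List.length_take]; omega) h1)
      · exact (Real.exp_pos _).le.trans (kerr_marg_low hk hK _ h1)
    · have e : (R + 1) * n = n + R * n := by ring
      rw [e, Ex_append]
      have h1 : (Ex k n fun u => Ex k (R * n) fun x => kernR n q (R + 1) v (u ++ x)) =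
          Ex k n fun u => (if n ≤ v.length then q (v.take n) u else marg n q u) := by
        refine Ex_congr fun u hu => ?_
        have h2 : (Ex k (R * n) fun x => kernR n q (R + 1) v (u ++ x)) =
            (if n ≤ v.length then q (v.take n) u else marg n q u) *
              Ex k (R * n) (kernR n q R (v.drop n)) := by
          rw [← Ex_const_mul]
          refine Ex_congr fun x _ => ?_
          simp only [kernR]
          rw [List.take_left' hu, List.drop_left' hu]
        rw [h2, (ih (v.drop n)).one, mul_one]
      rw [h1]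
      split_ifs with h
      · exact hK.one _ (by rw [List.length_take]; omega)
      · exact kerr_marg_one hk hK

theorem kerr_margR_dens (hk : 0 < k) {n : ℕ} {z δ b : ℝ} {q : List (Fin k) → List (Fin k) → ℝ}
    (hK : KerData k n z δ b q) : ∀ R : ℕ, IsDens k (R * n) (margR n q R) := by
  intro R
  induction R with
  | zero =>
    refine ⟨fun w _ => ?_, ?_⟩
    · simp [margR]
    · have : margR n q 0 = fun _ => (1 : ℝ) := rfl
      rw [this]; exact Ex_const hk _ 1
  | succ R ih =>
    refine ⟨fun w hw => ?_, ?_⟩
    · obtain ⟨h1, h2⟩ := kerr_take n R w hw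
      simp only [margR]
      refine mul_nonneg ?_ (ih.nonneg _ h2)
      exact (Real.exp_pos _).le.trans (kerr_marg_low hk hK _ h1)
    · have e : (R + 1) * n = n + R * n := by ring
      rw [e, Ex_append]
      have h1 : (Ex k n fun u => Ex k (R * n) fun x => margR n q (R + 1) (u ++ x)) =
          Ex k n fun u => marg n q u := by
        refine Ex_congr fun u hu => ?_
        have h2 : (Ex k (R * n) fun x => margR n q (R + 1) (u ++ x)) =
            marg n q u * Ex k (R * n) (margR n q R) := by
          rw [← Ex_const_mul]
          refine Ex_congr fun x _ => ?_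
          simp only [margR]
          rw [List.take_left' hu, List.drop_left' hu]
        rw [h2, ih.one, mul_one]
      rw [h1]
      exact kerr_marg_one hk hK

theorem kerr_marginal (hk : 0 < k) {n : ℕ} (hn : 1 ≤ n)
    (q : List (Fin k) → List (Fin k) → ℝ) : ∀ (R c : ℕ) (x : List (Fin k)),
    x.length = R * n → (Ex k c fun v => kernR n q R v x) = margR n q R x := by
  intro R
  induction R with
  | zero =>
    intro c x _
    simp only [kernR, margR]
    exact Ex_const hk c 1
  | succ R ih =>
    intro c x hx
    obtain ⟨h1, h2⟩ := kerr_take n R x hx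
    rcases le_or_gt n c with h | h
    · obtain ⟨c', rfl⟩ : ∃ c', c = n + c' := ⟨c - n, by omega⟩
      rw [Ex_append]
      have h3 : (Ex k n fun u => Ex k c' fun v => kernR n q (R + 1) (u ++ v) x) =
          Ex k n fun u => q u (x.take n) * margR n q R (x.drop n) := by
        refine Ex_congr fun u hu => ?_
        rw [← ih c' (x.drop n) h2, ← Ex_const_mul]
        refine Ex_congr fun v _ => ?_
        simp only [kernR]
        rw [if_pos (by rw [List.length_append]; omega), List.take_left' hu, List.drop_left' hu]
      rw [h3, Ex_mul_const]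
      rfl
    · have h3 : (Ex k c fun v => kernR n q (R + 1) v x) =
          Ex k c fun _ => marg n q (x.take n) * margR n q R (x.drop n) := by
        refine Ex_congr fun v hv => ?_
        simp only [kernR]
        rw [if_neg (by omega)]
        have h4 : v.drop n = [] := List.drop_eq_nil_of_le (by omega)
        have h5 := ih 0 (x.drop n) h2
        rw [Ex_zero] at h5
        rw [h4, h5]
      rw [h3, Ex_const hk]
      rfl

theorem kerr_bounds (hk : 0 < k) {n : ℕ} {z δ b : ℝ} {q : List (Fin k) → List (Fin k) → ℝ}
    (hK : KerData k n z δ b q) : ∀ (R : ℕ) (x : List (Fin k)), x.length = R * n →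
    Real.exp (-(b * R)) ≤ margR n q R x ∧ margR n q R x ≤ Real.exp (b * R) := by
  intro R
  induction R with
  | zero =>
    intro x _
    simp [margR]
  | succ R ih =>
    intro x hx
    obtain ⟨h1, h2⟩ := kerr_take n R x hx
    obtain ⟨h3, h4⟩ := ih _ h2
    have h5 := kerr_marg_low hk hK _ h1
    have h6 := kerr_marg_up hk hK _ h1
    have e1 : Real.exp (-(b * (R + 1 : ℕ))) = Real.exp (-b) * Real.exp (-(b * R)) := by
      rw [← Real.exp_add]; congr 1; push_cast; ring
    have e2 : Real.exp (b * (R + 1 : ℕ)) = Real.exp b * Real.exp (b * R) := by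
      rw [← Real.exp_add]; congr 1; push_cast; ring
    simp only [margR]
    rw [e1, e2]
    have h7 : 0 ≤ marg n q (x.take n) := (Real.exp_pos _).le.trans h5
    have h8 : 0 ≤ margR n q R (x.drop n) := (Real.exp_pos _).le.trans h3
    exact ⟨mul_le_mul h5 h3 (Real.exp_pos _).le h7, mul_le_mul h6 h4 h8 (Real.exp_pos _).le⟩

theorem stmt_KERR : Stmt_KERR := by
  intro k n R z δ b q hk hn hK
  exact ⟨kerr_dens hk hK R, kerr_margR_dens hk hK R, fun c x hx => kerr_marginal hk hn q R c x hx,
    fun x hx => kerr_bounds hk hK R x hx⟩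

end

end Pool.Agent.LCSV
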