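import Pool.Agent.Work.MP_bec1e1_lv_helper15.PlantInterface

/-!
# Block A_ALINE: the linear upper bound for all pairs of lengths from the bound on the diagonal
-/

set_option autoImplicit false
set_option maxHeartbeats 400000

open Filter Topology
open scoped BigOperators

namespace Pool.Agent.LCSV

open Pool.Agent.LCSE

noncomputable section

/-- best word of length `a` against a random word of length `b` -/
def Gsup (k a b : ℕ) : ℝ :=
  ⨆ x : {x : List (Fin k) // x.length = a}, Ex k b fun y => (L x.1 y : ℝ)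

theorem ExL_le_left {k : ℕ} (hk : 0 < k) (x : List (Fin k)) (b : ℕ) :
    (Ex k b fun y => (L x y : ℝ)) ≤ x.length :=
  Ex_le_const hk fun y _ => by exact_mod_cast L_le_left x y

theorem ExL_nonneg {k : ℕ} (x : List (Fin k)) (b : ℕ) :
    0 ≤ (Ex k b fun y => (L x y : ℝ)) := Ex_nonneg fun y _ => Nat.cast_nonneg _

theorem Gsup_bdd {k : ℕ} (hk : 0 < k) (a b : ℕ) :
    BddAbove (Set.range fun x : {x : List (Fin k) // x.length = a} =>
      Ex k b fun y => (L x.1 y : ℝ)) := by
  refine ⟨a, ?_⟩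
  rintro _ ⟨x, rfl⟩
  have := ExL_le_left hk x.1 b
  rwa [x.2] at this

theorem le_Gsup {k : ℕ} (hk : 0 < k) (x : List (Fin k)) (b : ℕ) :
    (Ex k b fun y => (L x y : ℝ)) ≤ Gsup k x.length b :=
  le_ciSup (Gsup_bdd hk x.length b) ⟨x, rfl⟩

theorem Gsup_ne {k : ℕ} (hk : 0 < k) (a : ℕ) : Nonempty {x : List (Fin k) // x.length = a} :=
  ⟨⟨List.replicate a ⟨0, hk⟩, by simp⟩⟩

theorem Gsup_le {k : ℕ} (hk : 0 < k) (a b : ℕ) {c : ℝ}
    (h : ∀ x : List (Fin k), x.length = a → (Ex k b fun y => (L x y : ℝ)) ≤ c) :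
    Gsup k a b ≤ c := by
  have := Gsup_ne hk a
  exact ciSup_le fun x => h x.1 x.2

theorem Gsup_super {k : ℕ} (hk : 0 < k) (a b a' b' : ℕ) :
    Gsup k a b + Gsup k a' b' ≤ Gsup k (a + a') (b + b') := by
  have h1 : Gsup k a b ≤ Gsup k (a + a') (b + b') - Gsup k a' b' := by
    refine Gsup_le hk a b fun x hx => ?_
    have h2 : Gsup k a' b' ≤ Gsup k (a + a') (b + b') - Ex k b fun y => (L x y : ℝ) := by
      refine Gsup_le hk a' b' fun x' hx' => ?_
      have h3 := le_Gsup hk (x ++ x') (b + b')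
      rw [List.length_append, hx, hx', Ex_append] at h3
      have h4 : (Ex k b fun y => (L x y : ℝ)) + (Ex k b' fun y => (L x' y : ℝ)) ≤
          Ex k b fun u => Ex k b' fun v => (L (x ++ x') (u ++ v) : ℝ) := by
        have h5 : (Ex k b fun y => (L x y : ℝ)) + (Ex k b' fun y => (L x' y : ℝ)) =
            Ex k b fun u => ((L x u : ℝ) + Ex k b' fun y => (L x' y : ℝ)) := by
          rw [Ex_add, Ex_const hk]
        rw [h5]
        refine Ex_mono fun u _ => ?_
        have h6 : (L x u : ℝ) + (Ex k b' fun y => (L x' y : ℝ)) =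
            Ex k b' fun v => ((L x u : ℝ) + (L x' v : ℝ)) := by
          rw [Ex_add, Ex_const hk]
        rw [h6]
        refine Ex_mono fun v _ => ?_
        exact_mod_cast L_append_ge x x' u v
      linarith
    linarith
  linarith

theorem Gsup_abs {k : ℕ} (hk : 0 < k) (a b : ℕ) : |Gsup k a b| ≤ 1 * ((a : ℝ) + b) := by
  have h0 : 0 ≤ Gsup k a b := by
    obtain ⟨x, hx⟩ := Gsup_ne hk a
    have := le_Gsup hk x b
    rw [hx] at this
    exact (ExL_nonneg x b).trans this
  rw [abs_of_nonneg h0, one_mul]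
  refine Gsup_le hk a b fun x hx => ?_
  have := ExL_le_left hk x b
  rw [hx] at this
  have : (0 : ℝ) ≤ b := Nat.cast_nonneg b
  linarith

theorem F_le_Gsup {k : ℕ} (hk : 0 < k) (a b : ℕ) : F k a b ≤ Gsup k a b := by
  refine Ex_le_const hk fun x hx => ?_
  have := le_Gsup hk x b
  rwa [hx] at this

/-- a linear bound for `F` gives one for `Phi` -/
theorem Phi_le_of_F_le {k : ℕ} (hP : PhiFacts k) {p q : ℝ}
    (h : ∀ a b : ℕ, F k a b ≤ p * a + q * b) (a b : ℝ) (ha : 0 ≤ a) (hb : 0 ≤ b) :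
    Phi k a b ≤ p * a + q * b := by
  have h1 := hP.lim a b ha hb
  have h2 : Tendsto (fun n : ℕ => p * ((⌊(n : ℝ) * a⌋₊ : ℝ) / n) + q * ((⌊(n : ℝ) * b⌋₊ : ℝ) / n))
      atTop (𝓝 (p * a + q * b)) := by
    have g : ∀ c : ℝ, 0 ≤ c → Tendsto (fun n : ℕ => (⌊(n : ℝ) * c⌋₊ : ℝ) / n) atTop (𝓝 c) := by
      intro c hc
      have := (tendsto_nat_floor_mul_div_atTop hc).comp (tendsto_natCast_atTop_atTop (R := ℝ))
      refine this.congr fun n => ?_
      simp only [Function.comp_apply, mul_comm]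
    exact ((g a ha).const_mul p).add ((g b hb).const_mul q)
  refine le_of_tendsto_of_tendsto h1 h2 ?_
  filter_upwards [eventually_gt_atTop 0] with n hn
  have hn' : (0 : ℝ) < n := by exact_mod_cast hn
  have h3 := h ⌊(n : ℝ) * a⌋₊ ⌊(n : ℝ) * b⌋₊
  have h4 : p * ((⌊(n : ℝ) * a⌋₊ : ℝ) / n) + q * ((⌊(n : ℝ) * b⌋₊ : ℝ) / n) =
      (p * (⌊(n : ℝ) * a⌋₊ : ℝ) + q * (⌊(n : ℝ) * b⌋₊ : ℝ)) / n := by ring
  rw [h4]
  exact div_le_div_of_nonneg_right h3 hn'.le

theorem stmt_ALINE : Stmt_ALINE := by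
  intro hdiag hphi hsup k hk hR
  have hk0 : 0 < k := by omega
  have hP := hphi k hk
  obtain ⟨p, hp⟩ := hsup (Gsup k) (gam k) 1 (Gsup_super hk0) (Gsup_abs hk0) (fun n =>
    Gsup_le hk0 n n fun x hx => by
      have := hdiag k hk hR x
      rwa [hx] at this)
  set q : ℝ := gam k - p with hq
  have hF : ∀ a b : ℕ, F k a b ≤ p * a + q * b := fun a b => (F_le_Gsup hk0 a b).trans (hp a b)
  have hΦ := Phi_le_of_F_le hP hF
  have hk1 : (1 : ℝ) ≤ k := by exact_mod_cast hk0
  have hsat : Phi k 1 k = 1 := hP.sat k le_rfl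
  have hlt := hP.gam_lt
  have hq0 : 0 < q := by
    by_contra hcon
    push Not at hcon
    have h1 := hΦ 1 k zero_le_one (by linarith)
    rw [hsat] at h1
    nlinarith
  have hp0 : 0 < p := by
    by_contra hcon
    push Not at hcon
    have h1 := hΦ k 1 (by linarith) zero_le_one
    rw [hP.comm, hsat] at h1
    nlinarith
  refine ⟨p, q, hp0, hq0, by rw [hq]; ring, ?_, ?_⟩
  · intro a b ha hb hab
    have hpq : p + q = 2 * al k := by rw [hq]; unfold al; ring
    obtain ⟨h1, h2⟩ := (hP.flat_iff a b ha hb).1 hab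
    rcases eq_or_lt_of_le hP.rho_one with hr | hr
    · rw [← hr] at h1 h2
      have : a = b := by linarith
      subst this
      have : p * a + q * a = (p + q) * a := by ring
      rw [this, hpq]; ring
    · have hr0 : 0 < rho k := by linarith
      have f1 : Flat k 1 (rho k) := (hP.flat_iff 1 (rho k) zero_le_one hr0.le).2
        ⟨by linarith, by nlinarith⟩
      have f2 : Flat k (rho k) 1 := (hP.flat_iff (rho k) 1 hr0.le zero_le_one).2
        ⟨by nlinarith, by linarith⟩
      have g1 := hΦ 1 (rho k) zero_le_one hr0.le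
      have g2 := hΦ (rho k) 1 hr0.le zero_le_one
      unfold Flat at f1 f2
      rw [f1] at g1
      rw [f2] at g2
      have hal : al k = (p + q) / 2 := by linarith
      rw [hal] at g1 g2
      have e1 : 0 ≤ (q - p) * (rho k - 1) := by nlinarith
      have e2 : 0 ≤ (p - q) * (rho k - 1) := by nlinarith
      have e3 : (q - p) * (rho k - 1) = 0 := by nlinarith
      have e4 : q - p = 0 := by
        rcases mul_eq_zero.1 e3 with h | h
        · exact h
        · linarith
      have e5 : q = p := by linarith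
      rw [hal, e5]; ring
  · intro x b
    exact (le_Gsup hk0 x b).trans (hp x.length b)

end

end Pool.Agent.LCSV
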