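import Pool.Agent.Work.MP_bec1e1_lv_helper15.PlantInterface

/-!
# Block A_SPLV: lower bound for the LCS of the spliced word
-/

set_option autoImplicit false
set_option maxHeartbeats 400000

open scoped BigOperators

namespace Pool.Agent.LCSV

open Pool.Agent.LCSE

noncomputable section

theorem splv_aux (k l : ℕ) : ∀ (bs : List Bool) (xs cs zs vs : List (List (Fin k)))
    (t y : List (Fin k)), xs.length = bs.length → cs.length = bs.length →
    zs.length = bs.length → vs.length = bs.length →
    cellVal l bs xs cs zs vs + (L (pad bs zs ++ t) y : ℝ) ≤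
      (L (splice bs xs cs zs ++ t) (vs.flatten ++ y) : ℝ) := by
  intro bs
  induction bs with
  | nil =>
    intro xs cs zs vs t y h1 h2 h3 h4
    obtain rfl := List.length_eq_zero_iff.1 h1
    obtain rfl := List.length_eq_zero_iff.1 h2
    obtain rfl := List.length_eq_zero_iff.1 h3
    obtain rfl := List.length_eq_zero_iff.1 h4
    simp [cellVal, pad, splice]
  | cons b bs ih =>
    intro xs cs zs vs t y h1 h2 h3 h4
    obtain ⟨x, xs, rfl⟩ := List.exists_cons_of_length_eq_add_one h1
    obtain ⟨c, cs, rfl⟩ := List.exists_cons_of_length_eq_add_one h2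
    obtain ⟨z, zs, rfl⟩ := List.exists_cons_of_length_eq_add_one h3
    obtain ⟨v, vs, rfl⟩ := List.exists_cons_of_length_eq_add_one h4
    simp only [List.length_cons, Nat.add_right_cancel_iff] at h1 h2 h3 h4
    cases b with
    | true =>
      have ih' := ih xs cs zs vs t y h1 h2 h3 h4
      simp only [cellVal, pad, splice, List.flatten_cons]
      have e1 : c ++ z ++ splice bs xs cs zs ++ t = c ++ (z ++ (splice bs xs cs zs ++ t)) := by
        simp
      have e2 : v ++ vs.flatten ++ y = v.take l ++ (v.drop l ++ (vs.flatten ++ y)) := by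
        rw [← List.append_assoc (v.take l), List.take_append_drop, List.append_assoc]
      rw [e1, e2]
      have g1 := L_append_ge c (z ++ (splice bs xs cs zs ++ t)) (v.take l)
        (v.drop l ++ (vs.flatten ++ y))
      have g2 := L_append_ge z (splice bs xs cs zs ++ t) (v.drop l) (vs.flatten ++ y)
      have g1' : (L c (v.take l) : ℝ) + L (z ++ (splice bs xs cs zs ++ t))
        (v.drop l ++ (vs.flatten ++ y)) ≤ L (c ++ (z ++ (splice bs xs cs zs ++ t)))
          (v.take l ++ (v.drop l ++ (vs.flatten ++ y))) := by exact_mod_cast g1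
      have g2' : (L z (v.drop l) : ℝ) + L (splice bs xs cs zs ++ t) (vs.flatten ++ y) ≤
        L (z ++ (splice bs xs cs zs ++ t)) (v.drop l ++ (vs.flatten ++ y)) := by exact_mod_cast g2
      linarith
    | false =>
      have ih' := ih xs cs zs vs (z ++ t) y h1 h2 h3 h4
      simp only [cellVal, pad, splice, List.flatten_cons]
      have e1 : x ++ splice bs xs cs zs ++ z ++ t = x ++ (splice bs xs cs zs ++ (z ++ t)) := by
        simp
      have e2 : v ++ vs.flatten ++ y = v ++ (vs.flatten ++ y) := by simp
      have e3 : pad bs zs ++ z ++ t = pad bs zs ++ (z ++ t) := by simp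
      rw [e1, e2, e3]
      have g1 := L_append_ge x (splice bs xs cs zs ++ (z ++ t)) v (vs.flatten ++ y)
      have g1' : (L x v : ℝ) + L (splice bs xs cs zs ++ (z ++ t)) (vs.flatten ++ y) ≤
        L (x ++ (splice bs xs cs zs ++ (z ++ t))) (v ++ (vs.flatten ++ y)) := by exact_mod_cast g1
      linarith

theorem stmt_SPLV : Stmt_SPLV := by
  intro k l bs xs cs zs vs y h1 h2 h3 h4
  have := splv_aux k l bs xs cs zs vs [] y h1 h2 h3 h4
  simpa using this

end

end Pool.Agent.LCSV
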