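import Pool.Agent.Work.MP_bec1e1_lv_helper15.Tools0

/-!
# Block SUP: supporting line of a superadditive function on `ℕ × ℕ`
-/

set_option autoImplicit false
set_option maxHeartbeats 400000

open scoped BigOperators

namespace Pool.Agent.LCSV

noncomputable section

/-- multiples -/
theorem sup_mul (G : ℕ → ℕ → ℝ)
    (h : ∀ a b a' b' : ℕ, G a b + G a' b' ≤ G (a + a') (b + b')) (a b : ℕ) :
    ∀ i : ℕ, 1 ≤ i → (i : ℝ) * G a b ≤ G (i * a) (i * b) := by
  intro i hi
  induction i, hi using Nat.le_induction with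
  | base => simp
  | succ i hi ih =>
    have h1 := h (i * a) (i * b) a b
    have h2 : (i + 1) * a = i * a + a := by ring
    have h3 : (i + 1) * b = i * b + b := by ring
    rw [h2, h3]
    push_cast
    linarith

/-- comparison of the two slopes -/
theorem sup_cmp (G : ℕ → ℕ → ℝ) (c : ℝ)
    (h : ∀ a b a' b' : ℕ, G a b + G a' b' ≤ G (a + a') (b + b'))
    (hd : ∀ n : ℕ, G n n ≤ c * n) (a b a' b' : ℕ) (hab : b < a) (hab' : a' < b') :
    (G a b - c * b) / ((a : ℝ) - b) ≤ (c * b' - G a' b') / ((b' : ℝ) - a') := by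
  obtain ⟨j, rfl⟩ : ∃ j, a = b + j := ⟨a - b, by omega⟩
  obtain ⟨i, rfl⟩ : ∃ i, b' = a' + i := ⟨b' - a', by omega⟩
  have hj : 1 ≤ j := by omega
  have hi : 1 ≤ i := by omega
  have h1 := sup_mul G h (b + j) b i hi
  have h2 := sup_mul G h a' (a' + i) j hj
  have h3 := h (i * (b + j)) (i * b) (j * a') (j * (a' + i))
  have e1 : i * (b + j) + j * a' = i * b + j * (a' + i) := by ring
  rw [e1] at h3
  have h4 := hd (i * b + j * (a' + i))
  push_cast at h4
  have hj' : (0 : ℝ) < j := by exact_mod_cast hj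
  have hi' : (0 : ℝ) < i := by exact_mod_cast hi
  have e2 : ((b + j : ℕ) : ℝ) - b = j := by push_cast; ring
  have e3 : ((a' + i : ℕ) : ℝ) - a' = i := by push_cast; ring
  rw [e2, e3, div_le_div_iff₀ hj' hi']
  push_cast
  nlinarith

theorem stmt_SUP : Stmt_SUP := by
  intro G c B h _ hd
  set S : Set ℝ := {x | ∃ a b : ℕ, b < a ∧ x = (G a b - c * b) / ((a : ℝ) - b)} with hS
  have hbdd : BddAbove S := by
    refine ⟨(c * (1 : ℕ) - G 0 1) / (((1 : ℕ) : ℝ) - (0 : ℕ)), ?_⟩
    rintro x ⟨a, b, hab, rfl⟩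
    exact sup_cmp G c h hd a b 0 1 hab (by norm_num)
  have hne : S.Nonempty := ⟨_, 1, 0, by norm_num, rfl⟩
  refine ⟨sSup S, fun a b => ?_⟩
  rcases lt_trichotomy a b with hab | hab | hab
  · have h1 : sSup S ≤ (c * b - G a b) / ((b : ℝ) - a) := by
      refine csSup_le hne ?_
      rintro x ⟨a', b', hab', rfl⟩
      exact sup_cmp G c h hd a' b' a b hab' hab
    have h2 : (0 : ℝ) < (b : ℝ) - a := by
      have : (a : ℝ) < b := by exact_mod_cast hab
      linarith
    rw [le_div_iff₀ h2] at h1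
    nlinarith
  · subst hab
    have := hd a
    nlinarith
  · have h1 : (G a b - c * b) / ((a : ℝ) - b) ≤ sSup S := le_csSup hbdd ⟨a, b, hab, rfl⟩
    have h2 : (0 : ℝ) < (a : ℝ) - b := by
      have : (b : ℝ) < a := by exact_mod_cast hab
      linarith
    rw [div_le_iff₀ h2] at h1
    nlinarith

end

end Pool.Agent.LCSV
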