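import Pool.Agent.Work.MP_bec1e1_FIN_h39.Interface

/-!
# Block FIN_RES: resampling of one window
-/

set_option autoImplicit false
set_option maxHeartbeats 400000

open Filter Topology
open scoped BigOperators

namespace Pool.Agent.LCSV

open Pool.Agent.LCSE

noncomputable section

variable {k : ℕ}

theorem res_ind_le {P Q : Prop} (h : P → Q) : ind P ≤ ind Q := by
  unfold ind
  by_cases hP : P
  · rw [if_pos hP, if_pos (h hP)]
  · rw [if_neg hP]; split_ifs <;> norm_num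

theorem res_ind_nonneg (P : Prop) : 0 ≤ ind P := by
  unfold ind; split_ifs <;> norm_num

theorem res_del_left (u v z x : List (Fin k)) :
    L (u ++ v ++ z) x ≤ L (u ++ z) x + v.length := by
  obtain ⟨g, hg, h1⟩ := L_append_split (u ++ v) z x
  obtain ⟨g', hg', h2⟩ := L_append_split u v (x.take g)
  have h3 := L_append_ge u z ((x.take g).take g') (x.drop g)
  have h4 : L (u ++ z) ((x.take g).take g' ++ x.drop g) ≤ L (u ++ z) x := by
    refine L_mono (List.Sublist.refl _) ?_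
    have := (List.take_sublist g' (x.take g)).append (List.Sublist.refl (x.drop g))
    rwa [List.take_append_drop] at this
  have h5 := L_le_left v ((x.take g).drop g')
  omega

/-- replacing a piece `v` by another one -/
theorem res_rep (x u v v' z : List (Fin k)) :
    L x (u ++ (v ++ z)) ≤ L x (u ++ (v' ++ z)) + v.length := by
  have h1 := res_del_left u v z x
  have h2 : L (u ++ z) x ≤ L (u ++ (v' ++ z)) x := by
    refine L_mono ?_ (List.Sublist.refl _)
    exact (List.Sublist.refl u).append (List.sublist_append_right v' z)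
  rw [L_comm x, L_comm x, ← List.append_assoc]
  omega

theorem res_rep_take (x u v v' z : List (Fin k)) (n : ℕ) (h : v.length = v'.length) :
    L x ((u ++ (v ++ z)).take n) ≤ L x ((u ++ (v' ++ z)).take n) + v.length := by
  rw [List.take_append, List.take_append, List.take_append, List.take_append, h]
  refine (res_rep x _ _ (v'.take (n - u.length)) _).trans ?_
  have : (v.take (n - u.length)).length ≤ v'.length := by
    rw [List.length_take, h]; exact min_le_right _ _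
  omega

theorem res_rep_drop (x u v v' z : List (Fin k)) (n : ℕ) (h : v.length = v'.length) :
    L x ((u ++ (v ++ z)).drop n) ≤ L x ((u ++ (v' ++ z)).drop n) + v.length := by
  rw [List.drop_append, List.drop_append, List.drop_append, List.drop_append, h]
  refine (res_rep x _ _ (v'.drop (n - u.length)) _).trans ?_
  have : (v.drop (n - u.length)).length ≤ v'.length := by
    rw [List.length_drop, h]; omega
  omega

theorem res_NT (x₁ x₂ u v v' z : List (Fin k)) (ℓ : ℝ) (g h : ℕ) (hv : v.length = h)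
    (hv' : v'.length = h) (hn : NT x₁ x₂ (u ++ (v ++ z)) ℓ g) :
    NT x₁ x₂ (u ++ (v' ++ z)) (ℓ + 3 * h) g := by
  unfold NT at *
  have h1 := res_rep (x₁ ++ x₂) u v' v z
  have h2 := res_rep_take x₁ u v v' z g (hv.trans hv'.symm)
  have h3 := res_rep_drop x₂ u v v' z g (hv.trans hv'.symm)
  rw [hv'] at h1
  rw [hv] at h2 h3
  have h1' : (L (x₁ ++ x₂) (u ++ (v' ++ z)) : ℝ) ≤ L (x₁ ++ x₂) (u ++ (v ++ z)) + h := by
    exact_mod_cast h1
  have h2' : (L x₁ ((u ++ (v ++ z)).take g) : ℝ) ≤ L x₁ ((u ++ (v' ++ z)).take g) + h := by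
    exact_mod_cast h2
  have h3' : (L x₂ ((u ++ (v ++ z)).drop g) : ℝ) ≤ L x₂ ((u ++ (v' ++ z)).drop g) + h := by
    exact_mod_cast h3
  linarith

theorem res_nNT (x₁ x₂ u v v' z : List (Fin k)) (ℓ : ℝ) (h : ℕ) (hv : v.length = h)
    (hv' : v'.length = h) :
    nNT x₁ x₂ (u ++ (v' ++ z)) (ℓ + 3 * h) ≤ nNT x₁ x₂ (u ++ (v ++ z)) (ℓ + 6 * h) := by
  classical
  unfold nNT
  have hlen : (u ++ (v' ++ z)).length = (u ++ (v ++ z)).length := by
    simp [hv, hv']
  rw [hlen]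
  refine Finset.card_le_card ?_
  intro g hg
  rw [Finset.mem_filter] at hg ⊢
  refine ⟨hg.1, ?_⟩
  have := res_NT x₁ x₂ u v' v z (ℓ + 3 * h) g h hv' hv hg.2
  have e : ℓ + 3 * (h : ℝ) + 3 * h = ℓ + 6 * h := by ring
  rwa [e] at this

/-- one position -/
theorem res_one (hk : 0 < k) (x₁ x₂ : List (Fin k)) (Q : List (Fin k) → Prop) (ℓ M : ℝ)
    (g h r : ℕ) :
    (Ex k (g + (h + r)) fun y => ind (NT x₁ x₂ y ℓ g ∧ Q ((y.drop g).take h) ∧
      (nNT x₁ x₂ y (ℓ + 6 * h) : ℝ) < M)) ≤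
    (Ex k h fun v => ind (Q v)) * Ex k (g + (h + r)) fun y =>
      ind (NT x₁ x₂ y (ℓ + 3 * h) g ∧ (nNT x₁ x₂ y (ℓ + 3 * h) : ℝ) < M) := by
  rw [Ex_append, Ex_append]
  rw [← Ex_const_mul]
  refine Ex_mono fun u hu => ?_
  rw [Ex_append, Ex_append]
  -- average over the new window
  have h1 : (Ex k h fun v => Ex k r fun z => ind (NT x₁ x₂ (u ++ (v ++ z)) ℓ g ∧
      Q (((u ++ (v ++ z)).drop g).take h) ∧
      (nNT x₁ x₂ (u ++ (v ++ z)) (ℓ + 6 * h) : ℝ) < M)) ≤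
      Ex k h fun v => ind (Q v) * Ex k r fun z => Ex k h fun v' =>
        ind (NT x₁ x₂ (u ++ (v' ++ z)) (ℓ + 3 * h) g ∧
          (nNT x₁ x₂ (u ++ (v' ++ z)) (ℓ + 3 * h) : ℝ) < M) := by
    refine Ex_mono fun v hv => ?_
    rw [← Ex_const_mul]
    refine Ex_mono fun z _ => ?_
    have h2 : ind (NT x₁ x₂ (u ++ (v ++ z)) ℓ g ∧
      Q (((u ++ (v ++ z)).drop g).take h) ∧
      (nNT x₁ x₂ (u ++ (v ++ z)) (ℓ + 6 * h) : ℝ) < M) =
      Ex k h fun _ => ind (NT x₁ x₂ (u ++ (v ++ z)) ℓ g ∧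
      Q (((u ++ (v ++ z)).drop g).take h) ∧
      (nNT x₁ x₂ (u ++ (v ++ z)) (ℓ + 6 * h) : ℝ) < M) := by rw [Ex_const hk]
    rw [h2, ← Ex_const_mul]
    refine Ex_mono fun v' hv' => ?_
    have e : ((u ++ (v ++ z)).drop g).take h = v := by
      rw [← hu, List.drop_left, ← hv, List.take_left]
    rw [e]
    by_cases hQ : Q v
    · have h3 : ind (Q v) = 1 := by unfold ind; rw [if_pos hQ]
      rw [h3, one_mul]
      refine res_ind_le fun hh => ⟨res_NT x₁ x₂ u v v' z ℓ g h hv hv' hh.1, ?_⟩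
      have := res_nNT x₁ x₂ u v v' z ℓ h hv hv'
      have h4 : (nNT x₁ x₂ (u ++ (v' ++ z)) (ℓ + 3 * h) : ℝ) ≤
        nNT x₁ x₂ (u ++ (v ++ z)) (ℓ + 6 * h) := by exact_mod_cast this
      exact lt_of_le_of_lt h4 hh.2.2
    · have h3 : ind (NT x₁ x₂ (u ++ (v ++ z)) ℓ g ∧ Q v ∧
          (nNT x₁ x₂ (u ++ (v ++ z)) (ℓ + 6 * h) : ℝ) < M) = 0 := by
        unfold ind; rw [if_neg]; exact fun hh => hQ hh.2.1
      rw [h3]
      exact mul_nonneg (res_ind_nonneg _) (res_ind_nonneg _)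
  refine h1.trans (le_of_eq ?_)
  rw [Ex_mul_const, Ex_comm r h]

theorem stmt_RES : Stmt_RES := by
  classical
  intro k h b x₁ x₂ Q δ ℓ M hk hM hQ
  have hk0 : 0 < k := by omega
  have hδ : 0 ≤ δ := le_trans (Ex_nonneg fun v _ => res_ind_nonneg _) hQ
  -- union bound
  have h1 : (Ex k b fun y => ind (∃ g, g + h ≤ b ∧ NT x₁ x₂ y ℓ g ∧ Q ((y.drop g).take h) ∧
      (nNT x₁ x₂ y (ℓ + 6 * h) : ℝ) < M)) ≤
      ∑ g ∈ (Finset.range (b + 1)).filter (fun g => g + h ≤ b), Ex k b fun y =>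
        ind (NT x₁ x₂ y ℓ g ∧ Q ((y.drop g).take h) ∧
          (nNT x₁ x₂ y (ℓ + 6 * h) : ℝ) < M) := by
    rw [← Ex_finset_sum]
    refine Ex_mono fun y _ => ?_
    by_cases hex : ∃ g, g + h ≤ b ∧ NT x₁ x₂ y ℓ g ∧ Q ((y.drop g).take h) ∧
      (nNT x₁ x₂ y (ℓ + 6 * h) : ℝ) < M
    · obtain ⟨g, hg, hrest⟩ := hex
      have h2 : ind (NT x₁ x₂ y ℓ g ∧ Q ((y.drop g).take h) ∧
          (nNT x₁ x₂ y (ℓ + 6 * h) : ℝ) < M) ≤
          ∑ g ∈ (Finset.range (b + 1)).filter (fun g => g + h ≤ b),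
            ind (NT x₁ x₂ y ℓ g ∧ Q ((y.drop g).take h) ∧
              (nNT x₁ x₂ y (ℓ + 6 * h) : ℝ) < M) := by
        refine Finset.single_le_sum (f := fun g => ind (NT x₁ x₂ y ℓ g ∧ Q ((y.drop g).take h) ∧
              (nNT x₁ x₂ y (ℓ + 6 * h) : ℝ) < M)) (fun i _ => res_ind_nonneg _) ?_
        rw [Finset.mem_filter, Finset.mem_range]
        exact ⟨by omega, hg⟩
      refine le_trans ?_ h2
      exact res_ind_le fun _ => hrest
    · have h3 : ind (∃ g, g + h ≤ b ∧ NT x₁ x₂ y ℓ g ∧ Q ((y.drop g).take h) ∧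
          (nNT x₁ x₂ y (ℓ + 6 * h) : ℝ) < M) = 0 := by
        unfold ind; rw [if_neg hex]
      rw [h3]
      exact Finset.sum_nonneg fun i _ => res_ind_nonneg _
  have h2 : ∀ g ∈ (Finset.range (b + 1)).filter (fun g => g + h ≤ b),
      (Ex k b fun y => ind (NT x₁ x₂ y ℓ g ∧ Q ((y.drop g).take h) ∧
          (nNT x₁ x₂ y (ℓ + 6 * h) : ℝ) < M)) ≤
      δ * Ex k b fun y => ind (NT x₁ x₂ y (ℓ + 3 * h) g ∧
        (nNT x₁ x₂ y (ℓ + 3 * h) : ℝ) < M) := by
    intro g hg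
    rw [Finset.mem_filter] at hg
    obtain ⟨r, hr⟩ : ∃ r, b = g + (h + r) := ⟨b - g - h, by omega⟩
    rw [hr]
    refine (res_one hk0 x₁ x₂ Q ℓ M g h r).trans ?_
    exact mul_le_mul_of_nonneg_right hQ (Ex_nonneg fun y _ => res_ind_nonneg _)
  refine h1.trans ((Finset.sum_le_sum h2).trans ?_)
  rw [← Finset.mul_sum, ← Ex_finset_sum, mul_comm]
  refine mul_le_mul_of_nonneg_right ?_ hδ
  refine Ex_le_const hk0 fun y hy => ?_
  by_cases hn : (nNT x₁ x₂ y (ℓ + 3 * h) : ℝ) < M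
  · have h3 : (∑ g ∈ (Finset.range (b + 1)).filter (fun g => g + h ≤ b),
        ind (NT x₁ x₂ y (ℓ + 3 * h) g ∧ (nNT x₁ x₂ y (ℓ + 3 * h) : ℝ) < M)) ≤
        ∑ g ∈ Finset.range (b + 1), ind (NT x₁ x₂ y (ℓ + 3 * h) g) := by
      refine le_trans (Finset.sum_le_sum fun g _ => res_ind_le (fun hh => hh.1)) ?_
      exact Finset.sum_le_sum_of_subset_of_nonneg (Finset.filter_subset _ _)
        fun _ _ _ => res_ind_nonneg _
    have h4 : (∑ g ∈ Finset.range (b + 1), ind (NT x₁ x₂ y (ℓ + 3 * h) g)) =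
        (nNT x₁ x₂ y (ℓ + 3 * h) : ℝ) := by
      unfold nNT ind
      rw [hy, Finset.card_filter]
      push_cast
      rfl
    rw [h4] at h3
    exact h3.trans hn.le
  · refine le_trans (le_of_eq ?_) hM
    refine Finset.sum_eq_zero fun g _ => ?_
    unfold ind
    rw [if_neg]
    exact fun hh => hn hh.2

end

end Pool.Agent.LCSV
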