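import Pool.Agent.Work.MP_bec1e1_FIN_h39.Interface

/-!
# Block FIN_T2D: comparison of the word `o^s` with random words (deterministic part)
-/

set_option autoImplicit false
set_option maxHeartbeats 400000

open Filter Topology
open scoped BigOperators

namespace Pool.Agent.LCSV

open Pool.Agent.LCSE

noncomputable section

variable {k : ℕ}

theorem t2_replicate_le (s : ℕ) (o : Fin k) (w : List (Fin k)) :
    L (List.replicate s o) w ≤ w.count o := by
  refine L_le fun l h1 h2 => ?_
  have h3 : l = List.replicate l.length o :=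
    List.eq_replicate_iff.2 ⟨rfl, fun b hb => List.eq_of_mem_replicate (h1.subset hb)⟩
  have h4 : l.count o = l.length := by
    rw [h3]; simp
  rw [← h4]
  exact h2.count_le o

theorem t2_three (x₁ r x₂ y : List (Fin k)) (g c : ℕ) :
    L x₁ (y.take g) + L r ((y.drop g).take c) + L x₂ (y.drop (g + c)) ≤ L (x₁ ++ r ++ x₂) y := by
  have h1 := L_append_ge r x₂ ((y.drop g).take c) ((y.drop g).drop c)
  have h2 := L_append_ge x₁ (r ++ x₂) (y.take g) (y.drop g)
  rw [List.take_append_drop] at h1 h2
  rw [List.drop_drop] at h1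
  rw [List.append_assoc]
  omega

theorem t2_two (x₁ x₂ y : List (Fin k)) (g c : ℕ) :
    L x₁ (y.take g) + L x₂ (y.drop (g + c)) ≤ L (x₁ ++ x₂) y := by
  have := t2_three x₁ [] x₂ y g c
  simp only [L_nil_left, List.append_nil] at this
  omega

/-- mean over the inserted rows -/
theorem t2_mean (hk : 0 < k) (n : ℕ) (x₁ x₂ y : List (Fin k)) (g c : ℕ) :
    ((L x₁ (y.take g) : ℝ) + L x₂ (y.drop (g + c))) +
      (Ex k n fun r => (L r ((y.drop g).take c) : ℝ)) ≤
      Ex k n fun r => (L (x₁ ++ r ++ x₂) y : ℝ) := by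
  have h1 : ((L x₁ (y.take g) : ℝ) + L x₂ (y.drop (g + c))) +
      (Ex k n fun r => (L r ((y.drop g).take c) : ℝ)) =
      Ex k n fun r => (((L x₁ (y.take g) : ℝ) + L x₂ (y.drop (g + c))) +
        (L r ((y.drop g).take c) : ℝ)) := by
    rw [Ex_add, Ex_const hk]
  rw [h1]
  refine Ex_mono fun r _ => ?_
  have := t2_three x₁ r x₂ y g c
  have h2 : ((L x₁ (y.take g) + L r ((y.drop g).take c) + L x₂ (y.drop (g + c)) : ℕ) : ℝ) ≤
    (L (x₁ ++ r ++ x₂) y : ℝ) := by exact_mod_cast this
  push_cast at h2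
  linarith

/-- `Phi s c ≥ min s (c / k)` -/
theorem t2_phi_min (hk : 2 ≤ k) (hP : PhiFacts k) (s c : ℝ) (hs : 0 < s) (hc : 0 ≤ c) :
    min s (c / k) ≤ Phi k s c := by
  have hk0 : (0 : ℝ) < k := by
    have : (2 : ℝ) ≤ k := by exact_mod_cast hk
    linarith
  rcases le_total (c / k) s with h | h
  · rw [min_eq_right h]
    have h1 := hP.superadd (c / k) c (s - c / k) 0 (by positivity) hc (by linarith) le_rfl
    have e1 : c / k + (s - c / k) = s := by ring
    rw [e1, add_zero] at h1
    have h2 : Phi k (c / k) c = c / k := by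
      have := hP.hom (c / k) 1 k (by positivity) zero_le_one hk0.le
      rw [mul_one, hP.sat k le_rfl, mul_one] at this
      have e2 : c / k * k = c := by field_simp
      rw [e2] at this
      exact this
    have h3 := hP.nonneg (s - c / k) 0
    linarith
  · rw [min_eq_left h]
    have h1 := hP.hom s 1 (c / s) hs.le zero_le_one (by positivity)
    have e1 : s * (c / s) = c := by field_simp
    rw [mul_one, e1] at h1
    rw [h1, hP.sat (c / s) ?_, mul_one]
    rw [le_div_iff₀ hs]
    rw [le_div_iff₀ hk0] at h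
    linarith

theorem stmt_T2D : Stmt_T2D := by
  intro k C p q Pl Pu hw
  have hk := hw.hk
  have hk' : 0 < k := by omega
  have hk2 : (2 : ℝ) ≤ k := by exact_mod_cast hk
  have hk0 : (0 : ℝ) < k := by linarith
  have hP := hw.phi
  have hpr := hw.pr
  have hPl0 := hpr.pos
  have hPl1 : Pl < 1 := by
    have := hpr.le
    have := hpr.lt
    have := hP.gam_lt
    linarith
  obtain ⟨η₂, hη₂, htwo⟩ := hpr.two
  set r₁ : ℝ := min (Pl / 4) (η₂ / (4 * k)) with hr₁
  have hr0 : 0 < r₁ := lt_min (by positivity) (by positivity)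
  have hrPl : r₁ ≤ Pl / 4 := min_le_left _ _
  have hrη : r₁ * k ≤ η₂ / 4 := by
    have : r₁ ≤ η₂ / (4 * k) := min_le_right _ _
    have h2 := mul_le_mul_of_nonneg_right this hk0.le
    have e : η₂ / (4 * k) * k = η₂ / 4 := by field_simp
    rwa [e] at h2
  obtain ⟨ηg, hηg, hgap⟩ := hpr.gap r₁ hr0
  set m : ℝ := min Pl (min η₂ ηg) / 4 with hm
  have hm0 : 0 < m := by
    rw [hm]; exact div_pos (lt_min hPl0 (lt_min hη₂ hηg)) (by norm_num)
  have hmPl : 4 * m ≤ Pl := by
    have : min Pl (min η₂ ηg) ≤ Pl := min_le_left _ _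
    rw [hm]; linarith
  have hm2 : 4 * m ≤ η₂ := by
    have : min Pl (min η₂ ηg) ≤ η₂ := (min_le_right _ _).trans (min_le_left _ _)
    rw [hm]; linarith
  have hmg : 4 * m ≤ ηg := by
    have : min Pl (min η₂ ηg) ≤ ηg := (min_le_right _ _).trans (min_le_right _ _)
    rw [hm]; linarith
  refine ⟨m, m, hm0, hm0, ?_⟩
  intro ε hε hεm s hs o x₁ x₂ y hyp
  have hs0 : (0 : ℝ) < s := by exact_mod_cast hs
  -- the optimal split with `o^s` inserted
  set W : List (Fin k) := List.replicate s o with hW
  obtain ⟨g, hg, hsp1⟩ := L_append_split x₁ (W ++ x₂) y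
  obtain ⟨c, hc, hsp2⟩ := L_append_split W x₂ (y.drop g)
  rw [List.drop_drop] at hsp2
  have hb : L (x₁ ++ W ++ x₂) y = L x₁ (y.take g) + L W ((y.drop g).take c) +
      L x₂ (y.drop (g + c)) := by
    rw [List.append_assoc, hsp1, hsp2]; ring
  have hWs : L W ((y.drop g).take c) ≤ s := by
    have := L_le_left W ((y.drop g).take c)
    simpa [hW] using this
  have hmono : L (x₁ ++ x₂) y ≤ L (x₁ ++ W ++ x₂) y := by
    refine L_mono ?_ (List.Sublist.refl _)
    exact (List.sublist_append_left x₁ W).append (List.Sublist.refl _)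
  have hdrop : ∀ c', c' ≤ c → L x₂ (y.drop (g + c)) ≤ L x₂ (y.drop (g + c')) := by
    intro c' hc'
    refine L_mono (List.Sublist.refl _) ?_
    have : y.drop (g + c) = (y.drop (g + c')).drop (c - c') := by
      rw [List.drop_drop]; congr 1; omega
    rw [this]
    exact List.drop_sublist _ _
  have hNT : NT x₁ x₂ y s g := by
    unfold NT
    have h1 := hdrop 0 (Nat.zero_le _)
    rw [add_zero] at h1
    have h2 : L (x₁ ++ x₂) y ≤ L x₁ (y.take g) + L x₂ (y.drop g) + s := by omega
    exact_mod_cast h2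
  obtain ⟨-, -, htyp⟩ := hyp g hg hNT
  -- truncation of the width
  set c' : ℕ := min c (2 * k * s) with hc'
  have hc'c : c' ≤ c := min_le_left _ _
  have hc'k : c' ≤ 2 * k * s := min_le_right _ _
  obtain ⟨ht1, ht2, ht3⟩ := htyp c' hc'k
  rw [List.take_take, min_eq_left hc'k] at ht1 ht2 ht3
  set V : ℝ := (L x₁ (y.take g) : ℝ) + L x₂ (y.drop (g + c')) with hV
  have hc'0 : (0 : ℝ) ≤ c' := Nat.cast_nonneg _
  have hεs : 0 < ε * s := mul_pos hε hs0
  -- (i)
  have hbV : (L (x₁ ++ W ++ x₂) y : ℝ) ≤ V + min (s : ℝ) ((c' : ℝ) / k + ε * s) := by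
    have h1 : (L x₂ (y.drop (g + c)) : ℝ) ≤ L x₂ (y.drop (g + c')) := by
      exact_mod_cast hdrop c' hc'c
    have h2 : (L W ((y.drop g).take c) : ℝ) ≤ s := by exact_mod_cast hWs
    have h3 : (L W ((y.drop g).take c) : ℝ) ≤ (c' : ℝ) / k + ε * s := by
      rcases le_total c (2 * k * s) with h | h
      · have e : c' = c := min_eq_left h
        rw [e] at ht1 ⊢
        have h4 : (L W ((y.drop g).take c) : ℝ) ≤ (((y.drop g).take c).count o : ℝ) := by
          exact_mod_cast t2_replicate_le s o _
        exact h4.trans ht1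
      · have e : c' = 2 * k * s := min_eq_right h
        rw [e]
        have : ((2 * k * s : ℕ) : ℝ) / k = 2 * s := by
          push_cast; field_simp
        rw [this]
        linarith
    have h4 := le_min h2 h3
    have h5 : (L (x₁ ++ W ++ x₂) y : ℝ) = (L x₁ (y.take g) : ℝ) + L W ((y.drop g).take c) +
        L x₂ (y.drop (g + c)) := by exact_mod_cast hb
    rw [h5, hV]
    linarith
  -- (ii)
  have hVL : V ≤ (L (x₁ ++ x₂) y : ℝ) := by
    have := t2_two x₁ x₂ y g c'
    rw [hV]; exact_mod_cast this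
  -- (iii)
  have hbc : (L (x₁ ++ W ++ x₂) y : ℝ) ≤ V + c' := by
    have h1 : (L x₂ (y.drop (g + c)) : ℝ) ≤ L x₂ (y.drop (g + c')) := by
      exact_mod_cast hdrop c' hc'c
    have h3 : L W ((y.drop g).take c) ≤ c' := by
      rcases le_total c (2 * k * s) with h | h
      · have e : c' = c := min_eq_left h
        rw [e]
        refine (L_le_right _ _).trans ?_
        rw [List.length_take]; exact min_le_left _ _
      · have e : c' = 2 * k * s := min_eq_right h
        rw [e]
        refine hWs.trans ?_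
        have h6 : 1 * s ≤ 2 * k * s := Nat.mul_le_mul_right s (by omega)
        omega
    have h3' : (L W ((y.drop g).take c) : ℝ) ≤ c' := by exact_mod_cast h3
    have h5 : (L (x₁ ++ W ++ x₂) y : ℝ) = (L x₁ (y.take g) : ℝ) + L W ((y.drop g).take c) +
        L x₂ (y.drop (g + c)) := by exact_mod_cast hb
    rw [h5, hV]
    linarith
  -- (iv), (v)
  have ha1 : V + (Phi k s c' - ε * s) ≤ Ex k s fun r => (L (x₁ ++ r ++ x₂) y : ℝ) := by
    have := t2_mean hk' s x₁ x₂ y g c'
    rw [← hV] at this
    linarith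
  have ha2 : V + (Phi k (2 * s) c' - ε * s) ≤
      Ex k (2 * s) fun r => (L (x₁ ++ r ++ x₂) y : ℝ) := by
    have := t2_mean hk' (2 * s) x₁ x₂ y g c'
    rw [← hV] at this
    linarith
  have hmin := t2_phi_min hk hP s c' hs0 hc'0
  set b₁ : ℝ := (L (x₁ ++ W ++ x₂) y : ℝ) with hb₁
  set a₁ : ℝ := Ex k s fun r => (L (x₁ ++ r ++ x₂) y : ℝ) with ha₁
  set a₂ : ℝ := Ex k (2 * s) fun r => (L (x₁ ++ r ++ x₂) y : ℝ) with ha₂
  refine ⟨?_, ?_⟩
  · have h1 : min (s : ℝ) ((c' : ℝ) / k + ε * s) ≤ min (s : ℝ) ((c' : ℝ) / k) + ε * s := by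
      rcases le_total (s : ℝ) ((c' : ℝ) / k) with h | h
      · rw [min_eq_left h]
        exact (min_le_left _ _).trans (by linarith)
      · rw [min_eq_right h]
        exact min_le_right _ _
    linarith
  · -- three cases
    rcases lt_or_ge (c' : ℝ) (r₁ * s) with hA | hA
    · -- short windows
      by_cases h : a₁ < (L (x₁ ++ x₂) y : ℝ) + (Pl - ε) * s
      · exact Or.inr (Or.inr h)
      · left
        push Not at h
        have h1 : (m + ε + r₁) * s ≤ Pl * s := by
          apply mul_le_mul_of_nonneg_right _ hs0.le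
          linarith
        linarith
    · rcases le_or_gt (c' : ℝ) ((1 - r₁) * k * s) with hB | hB
      · -- middle
        left
        have h1 := hgap (c' / s) (by rw [le_div_iff₀ hs0]; exact hA)
          (by rw [div_le_iff₀ hs0]; exact hB)
        have h2 := hP.hom s 1 (c' / s) hs0.le zero_le_one (by positivity)
        have e1 : (s : ℝ) * (c' / s) = c' := by field_simp
        rw [mul_one, e1] at h2
        have h3 := mul_le_mul_of_nonneg_left h1 hs0.le
        rw [← h2] at h3
        have e2 : (s : ℝ) * (c' / s / k + ηg) = c' / k + ηg * s := by field_simp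
        rw [e2] at h3
        have h4 : min (s : ℝ) ((c' : ℝ) / k + ε * s) ≤ (c' : ℝ) / k + ε * s := min_le_right _ _
        have h5 : (m + ε + ε) * s ≤ ηg * s := by
          apply mul_le_mul_of_nonneg_right _ hs0.le
          linarith
        linarith
      · -- wide windows
        by_cases h : b₁ + m * s ≤ a₁
        · exact Or.inl h
        · right; left
          push Not at h
          have h1 : min (s : ℝ) ((c' : ℝ) / k + ε * s) ≤ s := min_le_left _ _
          -- value of Phi
          have hr1 : 0 ≤ (1 - r₁) * k := mul_nonneg (by linarith) hk0.le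
          have h2 := hP.lip ((1 - r₁) * k) 2 (r₁ * k) hr1 (by norm_num)
            (mul_nonneg hr0.le hk0.le)
          have e1 : (1 - r₁) * k + r₁ * k = k := by ring
          rw [e1, hP.comm, hP.comm _ 2] at h2
          have h3 := hP.hom s 2 ((1 - r₁) * k) hs0.le (by norm_num) hr1
          have h4 := hP.mono (s * 2) (2 * s) (s * ((1 - r₁) * k)) c' (by linarith)
            (by linarith)
          rw [h3] at h4
          have h5 : s * (1 + Pu + η₂ - r₁ * k) ≤ s * Phi k 2 ((1 - r₁) * k) :=
            mul_le_mul_of_nonneg_left (by linarith) hs0.le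
          have h6 : (m + m + ε + r₁ * k) * s ≤ η₂ * s := by
            apply mul_le_mul_of_nonneg_right _ hs0.le
            linarith
          linarith

end

end Pool.Agent.LCSV
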