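import Pool.Agent.Work.MP_bec1e1_lv_helper15.Tools0

/-!
# Block DIR: windows of a path of almost maximal value near the column rich ray
-/

set_option autoImplicit false
set_option maxHeartbeats 400000

open scoped BigOperators

namespace Pool.Agent.LCSV

noncomputable section

theorem dir_ind_nonneg (P : Prop) : 0 ≤ ind P := by
  unfold ind; split_ifs <;> norm_num

theorem stmt_DIR : Stmt_DIR := by
  intro k hk hP ε hε
  set m : ℝ := min ε 1 with hm
  have hm0 : 0 < m := lt_min hε one_pos
  have hm1 : m ≤ 1 := min_le_right _ _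
  have hmε : m ≤ ε := min_le_left _ _
  have hρ : 1 ≤ rho k := hP.rho_one
  have hρ0 : 0 < rho k := by linarith
  set e : ℝ := m ^ 2 / (4 * rho k) with he
  have he0 : 0 < e := by positivity
  have heρ : e * (4 * rho k) = m ^ 2 := by
    rw [he]; field_simp
  have hmm : m ^ 2 ≤ m := by nlinarith
  have he4 : 4 * e ≤ m ^ 2 := by
    have := mul_le_mul_of_nonneg_left (show (4 : ℝ) ≤ 4 * rho k by linarith) he0.le
    linarith
  have hem : e ≤ m := by linarith
  obtain ⟨c', hc', hdef⟩ := hP.deficit e he0
  set δ : ℝ := e * c' / (c' + 3) with hδ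
  have hδ0 : 0 < δ := by positivity
  have hδ1 : δ * (c' + 3) = e * c' := by
    rw [hδ]; field_simp
  -- δ + 3 δ / c' = e
  have hδ2 : δ + 3 * δ / c' = e := by
    field_simp
    linarith
  have hδc0 : 0 < 3 * δ / c' := by positivity
  have hδe : δ ≤ e := by linarith
  refine ⟨δ, hδ0, ?_⟩
  intro T s c l hs hc hl hbad hval hrow
  -- abbreviations
  set Φ : Fin T → ℝ := fun i => Phi k s (c i) with hΦ
  set D : Fin T → ℝ := fun i => al k * (s + c i) - Φ i with hD
  have hD0 : ∀ i, 0 ≤ D i := fun i => by
    have := hP.line s (c i) hs.le (hc i)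
    simp only [hD, hΦ]; linarith
  have hΦ0 : ∀ i, 0 ≤ Φ i := fun i => hP.nonneg s (c i)
  set bd : Fin T → ℝ := fun i => ind (Phi k s (c i) + δ * s < l i) with hbd
  have hm_le : ∀ i, l i - Φ i ≤ δ * s + s * bd i := by
    intro i
    by_cases h : Phi k s (c i) + δ * s < l i
    · have h1 : bd i = 1 := by simp only [hbd, ind]; rw [if_pos h]
      rw [h1]
      have := hΦ0 i
      have := (hl i).1
      nlinarith
    · have h1 : bd i = 0 := by simp only [hbd, ind]; rw [if_neg h]
      rw [h1]
      push Not at h
      simp only [hΦ]; linarith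
  have hsum_bd : ∑ i, (δ * s + s * bd i) ≤ 2 * δ * s * T := by
    have h1 : ∑ i, (δ * s + s * bd i) = T * (δ * s) + s * ∑ i, bd i := by
      rw [Finset.sum_add_distrib, Finset.mul_sum]
      simp only [Finset.sum_const, Finset.card_univ, Fintype.card_fin, nsmul_eq_mul]
    rw [h1]
    have := mul_le_mul_of_nonneg_left hbad hs.le
    linarith
  have hsum_m : (∑ i, D i) - δ * s * T ≤ ∑ i, (l i - Φ i) := by
    have h1 : ∑ i, (l i - Φ i) - ∑ i, D i = ∑ i, l i - (al k * (s * T + ∑ i, c i)) := by
      rw [← Finset.sum_sub_distrib]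
      have : ∀ i, l i - Φ i - D i = l i - al k * (s + c i) := fun i => by simp only [hD]; ring
      rw [Finset.sum_congr rfl (fun i _ => this i), Finset.sum_sub_distrib, ← Finset.mul_sum,
        Finset.sum_add_distrib]
      simp only [Finset.sum_const, Finset.card_univ, Fintype.card_fin, nsmul_eq_mul]
      ring
    linarith
  have hsum_D : ∑ i, D i ≤ 3 * δ * s * T := by
    have h1 : ∑ i, (l i - Φ i) ≤ ∑ i, (δ * s + s * bd i) := Finset.sum_le_sum fun i _ => hm_le i
    linarith
  have hD00 : 0 ≤ ∑ i, D i := Finset.sum_nonneg fun i _ => hD0 i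
  have hT0 : (0 : ℝ) ≤ T := Nat.cast_nonneg T
  -- the auxiliary nonnegative quantity
  set A : Fin T → ℝ := fun i => D i / c' with hA
  have hA0 : ∀ i, 0 ≤ A i := fun i => div_nonneg (hD0 i) hc'.le
  have hAbig : ∀ i, (rho k + e) * s ≤ c i → s + c i ≤ A i := by
    intro i hi
    have h1 := hdef s (c i) hs.le hi
    simp only [hA]
    rw [le_div_iff₀ hc']
    simp only [hD, hΦ]
    nlinarith
  have hsum_A : ∑ i, A i ≤ 3 * δ / c' * s * T := by
    simp only [hA]
    rw [← Finset.sum_div, div_le_iff₀ hc']
    have : 3 * δ / c' * s * T * c' = 3 * δ * s * T := by field_simp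
    rw [this]; exact hsum_D
  set E : Fin T → ℝ := fun i => (rho k + e) * s - c i + A i with hE
  have hE0 : ∀ i, 0 ≤ E i := by
    intro i
    simp only [hE]
    by_cases h : (rho k + e) * s ≤ c i
    · have := hAbig i h
      have h2 : 0 ≤ (rho k + e) * s := by positivity
      linarith
    · have := hA0 i
      push Not at h
      linarith
  have hsum_E : ∑ i, E i ≤ 2 * e * s * T := by
    have h1 : ∑ i, E i = (rho k + e) * s * T - ∑ i, c i + ∑ i, A i := by
      simp only [hE]
      rw [Finset.sum_add_distrib, Finset.sum_sub_distrib]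
      simp only [Finset.sum_const, Finset.card_univ, Fintype.card_fin, nsmul_eq_mul]
      ring
    rw [h1]
    have h2 : (δ + 3 * δ / c') * s * T = e * s * T := by rw [hδ2]
    nlinarith
  -- pointwise bounds
  have hpt : ∀ i, m * s * ind (ε * s < |c i - rho k * s|) ≤ E i := by
    intro i
    by_cases h : ε * s < |c i - rho k * s|
    · have h1 : ind (ε * s < |c i - rho k * s|) = 1 := by simp only [ind]; rw [if_pos h]
      rw [h1, mul_one]
      rcases lt_abs.1 h with h2 | h2
      · have h3 : (rho k + e) * s ≤ c i := by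
          have : e * s ≤ ε * s := by
            apply mul_le_mul_of_nonneg_right _ hs.le
            linarith
          nlinarith
        have h4 := hAbig i h3
        simp only [hE]
        have : m * s ≤ 1 * s := mul_le_mul_of_nonneg_right hm1 hs.le
        have : 0 ≤ (rho k + e) * s := by positivity
        linarith
      · have := hA0 i
        simp only [hE]
        have : m * s ≤ ε * s := mul_le_mul_of_nonneg_right hmε hs.le
        have : 0 ≤ e * s := by positivity
        nlinarith
    · have h1 : ind (ε * s < |c i - rho k * s|) = 0 := by simp only [ind]; rw [if_neg h]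
      rw [h1, mul_zero]
      exact hE0 i
  have hpt3 : ∀ i, ind (ε * s < |c i - rho k * s|) * c i ≤ rho k / m * E i + A i := by
    intro i
    have hq : 0 ≤ rho k / m * E i := mul_nonneg (by positivity) (hE0 i)
    by_cases h : ε * s < |c i - rho k * s|
    · have h1 : ind (ε * s < |c i - rho k * s|) = 1 := by simp only [ind]; rw [if_pos h]
      rw [h1, one_mul]
      rcases lt_abs.1 h with h2 | h2
      · have h3 : (rho k + e) * s ≤ c i := by
          have : e * s ≤ ε * s := by
            apply mul_le_mul_of_nonneg_right _ hs.le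
            linarith
          nlinarith
        have h4 := hAbig i h3
        linarith
      · have h4 := hpt i
        rw [h1, mul_one] at h4
        have h5 : rho k / m * (m * s) ≤ rho k / m * E i :=
          mul_le_mul_of_nonneg_left h4 (by positivity)
        have h6 : rho k / m * (m * s) = rho k * s := by field_simp
        have := hA0 i
        have : 0 ≤ ε * s := by positivity
        linarith
    · have h1 : ind (ε * s < |c i - rho k * s|) = 0 := by simp only [ind]; rw [if_neg h]
      rw [h1, zero_mul]
      have := hA0 i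
      linarith
  have hpt2 : ∀ i, ε * s * ind (l i < Phi k s (c i) - ε * s) ≤
      (δ * s + s * bd i) - (l i - Φ i) := by
    intro i
    have h0 := hm_le i
    by_cases h : l i < Phi k s (c i) - ε * s
    · have h1 : ind (l i < Phi k s (c i) - ε * s) = 1 := by simp only [ind]; rw [if_pos h]
      rw [h1, mul_one]
      have h2 : 0 ≤ bd i := dir_ind_nonneg _
      have h3 : 0 ≤ s * bd i := mul_nonneg hs.le h2
      have h4 : 0 ≤ δ * s := by positivity
      simp only [hΦ]
      linarith
    · have h1 : ind (l i < Phi k s (c i) - ε * s) = 0 := by simp only [ind]; rw [if_neg h]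
      rw [h1, mul_zero]
      linarith
  have hsT : 0 ≤ s * T := by positivity
  -- 2 e ≤ m ^ 2 / 2
  have he2 : 2 * e ≤ m ^ 2 / 2 := by linarith
  refine ⟨?_, ?_, ?_⟩
  · have h1 : m * s * ∑ i, ind (ε * s < |c i - rho k * s|) ≤ 2 * e * s * T := by
      rw [Finset.mul_sum]
      exact (Finset.sum_le_sum fun i _ => hpt i).trans hsum_E
    have h2 : 2 * e * s * T ≤ m * s * (m * T) := by
      have := mul_le_mul_of_nonneg_right (show 2 * e ≤ m ^ 2 by linarith) hsT
      linarith
    have h3 : m * s * ∑ i, ind (ε * s < |c i - rho k * s|) ≤ m * s * (m * T) := h1.trans h2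
    have h4 := le_of_mul_le_mul_left h3 (by positivity)
    exact h4.trans (mul_le_mul_of_nonneg_right hmε hT0)
  · have h1 : ε * s * ∑ i, ind (l i < Phi k s (c i) - ε * s) ≤ 3 * δ * s * T := by
      rw [Finset.mul_sum]
      refine (Finset.sum_le_sum fun i _ => hpt2 i).trans ?_
      rw [Finset.sum_sub_distrib]
      linarith
    have h2 : 3 * δ ≤ ε * ε := by
      have h3 : 3 * δ ≤ 3 * e := by linarith
      have h4 : 3 * e ≤ m ^ 2 := by linarith
      have h5 : m ^ 2 ≤ ε * ε := by
        rw [pow_two]; exact mul_le_mul hmε hmε hm0.le hε.le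
      linarith
    have h3 : 3 * δ * s * T ≤ ε * s * (ε * T) := by
      have := mul_le_mul_of_nonneg_right h2 hsT
      linarith
    exact le_of_mul_le_mul_left (h1.trans h3) (by positivity)
  · have h1 : ∑ i, ind (ε * s < |c i - rho k * s|) * c i ≤
        rho k / m * (2 * e * s * T) + 3 * δ / c' * s * T := by
      refine (Finset.sum_le_sum fun i _ => hpt3 i).trans ?_
      rw [Finset.sum_add_distrib, ← Finset.mul_sum]
      have := mul_le_mul_of_nonneg_left hsum_E (show 0 ≤ rho k / m by positivity)
      linarith
    have h2 : rho k / m * (2 * e * s * T) = m / 2 * (s * T) := by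
      rw [he]; field_simp; ring
    have h3 : 3 * δ / c' * s * T ≤ m / 4 * (s * T) := by
      have h5 : 3 * δ / c' ≤ m / 4 := by linarith
      have := mul_le_mul_of_nonneg_right h5 hsT
      linarith
    rw [h2] at h1
    have h4 : m * (s * T) ≤ ε * (s * T) := mul_le_mul_of_nonneg_right hmε hsT
    have h5 : 0 ≤ m * (s * T) := by positivity
    linarith

end

end Pool.Agent.LCSV
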