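import Pool.Agent.Work.MP_bec1e1_FIN_h39.Interface

/-!
# Block FIN_PRI: the prices of a row
-/

set_option autoImplicit false
set_option maxHeartbeats 400000

open Filter Topology
open scoped BigOperators

namespace Pool.Agent.LCSV

open Pool.Agent.LCSE

noncomputable section

variable {k : ℕ}

/-- concavity: two points -/
theorem pri_conc (hP : PhiFacts k) {t a b a' b' : ℝ} (ht : 0 ≤ t) (ht1 : t ≤ 1) (ha : 0 ≤ a)
    (hb : 0 ≤ b) (ha' : 0 ≤ a') (hb' : 0 ≤ b') :
    t * Phi k a b + (1 - t) * Phi k a' b' ≤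
      Phi k (t * a + (1 - t) * a') (t * b + (1 - t) * b') := by
  have h1 : 0 ≤ 1 - t := by linarith
  rw [← hP.hom t a b ht ha hb, ← hP.hom (1 - t) a' b' h1 ha' hb']
  exact hP.superadd _ _ _ _ (mul_nonneg ht ha) (mul_nonneg ht hb) (mul_nonneg h1 ha')
    (mul_nonneg h1 hb')

theorem pri_sat (hP : PhiFacts k) : Phi k 1 k = 1 := hP.sat k le_rfl

/-- a strict point near the saturated direction gives a uniform gap -/
theorem pri_gap (hk : 2 ≤ k) (hP : PhiFacts k) (r : ℝ) (hr : 0 < r) :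
    ∃ η : ℝ, 0 < η ∧ ∀ c : ℝ, r ≤ c → c ≤ (1 - r) * k → c / k + η ≤ Phi k 1 c := by
  have hk2 : (2 : ℝ) ≤ k := by exact_mod_cast hk
  have hk0 : (0 : ℝ) < k := by linarith
  obtain ⟨δ₀, hδ₀, hder⟩ := hP.der (1 / (2 * k)) (by positivity)
  set δ : ℝ := min δ₀ 1 with hδ
  have hδ0 : 0 < δ := lt_min hδ₀ one_pos
  have hδ1 : δ ≤ 1 := min_le_right _ _
  have h1 := hder δ hδ0.le (min_le_left _ _)
  set c₁ : ℝ := k - δ with hc₁
  have hc₁0 : 0 < c₁ := by rw [hc₁]; linarith
  have hc₁k : c₁ < k := by rw [hc₁]; linarith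
  set g : ℝ := δ / (2 * k) with hg
  have hg0 : 0 < g := by positivity
  have h2 : c₁ / k + g ≤ Phi k 1 c₁ := by
    have : c₁ / k + g = 1 - 1 / (2 * k) * δ := by
      rw [hc₁, hg]; field_simp; ring
    rw [this]; exact h1
  refine ⟨r / k * g, by positivity, ?_⟩
  intro c hrc hck
  have hc0 : 0 < c := lt_of_lt_of_le hr hrc
  have hck' : c < k := by nlinarith
  rcases le_total c c₁ with h | h
  · -- left of the strict point
    set t : ℝ := c / c₁ with ht
    have ht0 : 0 ≤ t := by positivity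
    have ht1 : t ≤ 1 := by rw [ht, div_le_one hc₁0]; exact h
    have h3 := pri_conc hP ht0 ht1 zero_le_one hc₁0.le zero_le_one (le_refl (0 : ℝ))
    have e1 : t * 1 + (1 - t) * 1 = 1 := by ring
    have e2 : t * c₁ + (1 - t) * 0 = c := by rw [ht]; field_simp; ring
    rw [e1, e2] at h3
    have h4 : 0 ≤ (1 - t) * Phi k 1 0 := mul_nonneg (by linarith) (hP.nonneg _ _)
    have h5 : t * (c₁ / k + g) ≤ t * Phi k 1 c₁ := mul_le_mul_of_nonneg_left h2 ht0
    have e3 : t * (c₁ / k + g) = c / k + t * g := by rw [ht]; field_simp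
    have h6 : r / k ≤ t := by
      rw [ht, div_le_div_iff₀ hk0 hc₁0]
      nlinarith
    have h7 : r / k * g ≤ t * g := mul_le_mul_of_nonneg_right h6 hg0.le
    linarith
  · set t : ℝ := (k - c) / (k - c₁) with ht
    have hd : 0 < k - c₁ := by linarith
    have ht0 : 0 ≤ t := div_nonneg (by linarith) hd.le
    have ht1 : t ≤ 1 := by rw [ht, div_le_one hd]; linarith
    have h3 := pri_conc hP ht0 ht1 zero_le_one hc₁0.le zero_le_one hk0.le
    have e1 : t * 1 + (1 - t) * 1 = 1 := by ring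
    have e2 : t * c₁ + (1 - t) * k = c := by
      have : t * (k - c₁) = k - c := by rw [ht]; field_simp
      linarith
    rw [e1, e2, pri_sat hP] at h3
    have h5 : t * (c₁ / k + g) ≤ t * Phi k 1 c₁ := mul_le_mul_of_nonneg_left h2 ht0
    have e3 : t * (c₁ / k + g) + (1 - t) * 1 = c / k + t * g := by
      have : c / k = (t * c₁ + (1 - t) * k) / k := by rw [e2]
      rw [this]; field_simp
      ring
    have h6 : r / k ≤ t := by
      rw [ht, div_le_div_iff₀ hk0 hd]
      have h8 : r * k ≤ k - c := by linarith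
      have h9 : k - c₁ ≤ 1 := by rw [hc₁]; linarith
      have h10 : r * (k - c₁) ≤ r * 1 := mul_le_mul_of_nonneg_left h9 hr.le
      have h11 : r * k ≤ r * k * k := by nlinarith [mul_pos hr hk0]
      have h12 : (k - c) * k ≥ r * k * k := mul_le_mul_of_nonneg_right h8 hk0.le
      nlinarith
    have h7 : r / k * g ≤ t * g := mul_le_mul_of_nonneg_right h6 hg0.le
    linarith

/-- the saturated direction: strict gain for the second cell -/
theorem pri_two (hk : 2 ≤ k) (hP : PhiFacts k) (Pu : ℝ) (hlt : Pu < gam k)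
    (hline : ∀ a b : ℝ, 0 ≤ a → 0 ≤ b → Phi k a b ≤ Pu * a + (gam k - Pu) * b) :
    ∃ η : ℝ, 0 < η ∧ 1 + Pu + η ≤ Phi k 2 k := by
  have hk2 : (2 : ℝ) ≤ k := by exact_mod_cast hk
  have hk0 : (0 : ℝ) < k := by linarith
  have hPu1 : Pu < 1 := lt_trans hlt hP.gam_lt
  obtain ⟨δ₀, hδ₀, hder⟩ := hP.der ((1 - Pu) / (2 * k)) (by
    apply div_pos <;> linarith)
  set u : ℝ := min (δ₀ / k) 1 with hu
  have hu0 : 0 < u := lt_min (by positivity) one_pos
  have huk : k * u ≤ δ₀ := by
    have : u ≤ δ₀ / k := min_le_left _ _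
    rw [le_div_iff₀ hk0] at this
    linarith
  set δ : ℝ := k * u / (1 + u) with hδ
  have h1u : 0 < 1 + u := by linarith
  have hδ0 : 0 ≤ δ := by positivity
  have hδle : δ ≤ k * u := by
    rw [hδ, div_le_iff₀ h1u]
    nlinarith [mul_pos hk0 hu0]
  have h1 := hder δ hδ0 (hδle.trans huk)
  have e1 : k - δ = k / (1 + u) := by
    rw [hδ]; field_simp; ring
  -- value at (1 + u, k)
  have h2 : Phi k (1 + u) k = (1 + u) * Phi k 1 (k - δ) := by
    rw [← hP.hom (1 + u) 1 (k - δ) h1u.le zero_le_one (by rw [e1]; positivity), e1]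
    congr 1
    · ring
    · field_simp
  have h3 := hline (1 + u) k h1u.le hk0.le
  have h4 : (1 + u) * (1 - (1 - Pu) / (2 * k) * δ) ≤ (1 + u) * Phi k 1 (k - δ) :=
    mul_le_mul_of_nonneg_left h1 h1u.le
  have e2 : (1 + u) * (1 - (1 - Pu) / (2 * k) * δ) = 1 + u - (1 - Pu) / 2 * u := by
    rw [hδ]; field_simp
  have h5 : 1 + u * (1 - Pu) / 2 ≤ k * gam k - (k - 1) * Pu := by
    rw [e2, ← h2] at h4
    nlinarith
  -- concavity between the rows 1 and k
  have h6 := hP.superadd (k - 2) ((k - 2) * k) k k (by linarith)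
    (mul_nonneg (by linarith) hk0.le) hk0.le hk0.le
  have e3 : Phi k ((k : ℝ) - 2) (((k : ℝ) - 2) * k) = (k - 2) := by
    have := hP.hom ((k : ℝ) - 2) 1 k (by linarith) zero_le_one hk0.le
    rw [mul_one, pri_sat hP, mul_one] at this
    exact this
  have e4 : Phi k (k : ℝ) k = k * gam k := by
    have := hP.hom (k : ℝ) 1 1 hk0.le zero_le_one zero_le_one
    rw [mul_one] at this
    exact this
  have e5 : Phi k ((k : ℝ) - 2 + k) (((k : ℝ) - 2) * k + k) = (k - 1) * Phi k 2 k := by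
    rw [← hP.hom ((k : ℝ) - 1) 2 k (by linarith) (by norm_num) hk0.le]
    congr 1 <;> ring
  rw [e3, e4, e5] at h6
  refine ⟨u * (1 - Pu) / 2 / (k - 1), ?_, ?_⟩
  · apply div_pos _ (by linarith)
    apply div_pos _ two_pos
    exact mul_pos hu0 (by linarith)
  · have hk1 : (0 : ℝ) < k - 1 := by linarith
    have h7 : (k - 1) * (1 + Pu + u * (1 - Pu) / 2 / (k - 1)) ≤ (k - 1) * Phi k 2 k := by
      have : (k - 1) * (1 + Pu + u * (1 - Pu) / 2 / (k - 1)) =
          (k - 1) * (1 + Pu) + u * (1 - Pu) / 2 := by field_simp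
      rw [this]; linarith
    exact le_of_mul_le_mul_left h7 hk1

/-- nontrivial cone -/
theorem pri_cone (hk : 2 ≤ k) (hP : PhiFacts k) (hr : 1 < rho k) :
    Prices k (al k) (al k) := by
  have hg := hP.gam_pos
  have hal : al k = gam k / 2 := rfl
  have hline : ∀ a b : ℝ, 0 ≤ a → 0 ≤ b → Phi k a b ≤ al k * a + (gam k - al k) * b := by
    intro a b ha hb
    have := hP.line a b ha hb
    have e : gam k - al k = al k := by rw [hal]; ring
    rw [e]; linarith
  have hlt : al k < gam k := by rw [hal]; linarith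
  refine ⟨by rw [hal]; linarith, le_refl _, hlt, hline, hline, ?_, ?_, fun _ => ⟨rfl, rfl⟩,
    fun r hr => pri_gap hk hP r hr, pri_two hk hP _ hlt hline⟩
  · intro ε hε
    refine ⟨rho k - 1, by linarith, ?_⟩
    have hr0 : 0 < rho k := by linarith
    have e : 1 + (rho k - 1) = rho k := by ring
    rw [e]
    have h1 : Flat k (rho k) (rho k) := (hP.flat_iff _ _ hr0.le hr0.le).2 ⟨by nlinarith, by nlinarith⟩
    unfold Flat at h1
    have h2 := hP.line 1 (rho k) zero_le_one hr0.le
    rw [h1]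
    have : 0 ≤ ε * (rho k - 1) := mul_nonneg hε.le (by linarith)
    linarith
  · intro h; exact absurd h (by linarith)

/-- trivial cone -/
theorem pri_triv (hk : 2 ≤ k) (hP : PhiFacts k) (hr : rho k = 1) :
    ∃ Pl Pu : ℝ, Prices k Pl Pu := by
  have hk2 : (2 : ℝ) ≤ k := by exact_mod_cast hk
  have hk0 : (0 : ℝ) < k := by linarith
  have hγ : Phi k 1 1 = gam k := rfl
  set f : ℝ → ℝ := fun a => Phi k a 1 with hf
  set S : Set ℝ := {x | ∃ u : ℝ, 0 < u ∧ x = (f (1 + u) - gam k) / u} with hS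
  set S' : Set ℝ := {x | ∃ u : ℝ, 0 < u ∧ u < 1 ∧ x = (gam k - f (1 - u)) / u} with hS'
  have hcmp : ∀ x ∈ S, ∀ y ∈ S', x ≤ y := by
    rintro x ⟨u, hu, rfl⟩ y ⟨v, hv, hv1, rfl⟩
    rw [div_le_div_iff₀ hu hv]
    have huv : 0 < u + v := by linarith
    set t : ℝ := v / (u + v) with ht
    have ht0 : 0 ≤ t := by positivity
    have ht1 : t ≤ 1 := by rw [ht, div_le_one huv]; linarith
    have h1 := pri_conc hP ht0 ht1 (show (0 : ℝ) ≤ 1 + u by linarith) zero_le_one
      (show (0 : ℝ) ≤ 1 - v by linarith) zero_le_one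
    have hvt : v = t * (u + v) := by rw [ht]; field_simp
    have e1 : t * (1 + u) + (1 - t) * (1 - v) = 1 := by linarith
    have e2 : t * 1 + (1 - t) * 1 = 1 := by ring
    rw [e1, e2, hγ] at h1
    have h2 := mul_le_mul_of_nonneg_right h1 huv.le
    have e3 : (t * Phi k (1 + u) 1 + (1 - t) * Phi k (1 - v) 1) * (u + v) =
        v * Phi k (1 + u) 1 + u * Phi k (1 - v) 1 := by
      have hut : (1 - t) * (u + v) = u := by linarith
      have : (t * Phi k (1 + u) 1 + (1 - t) * Phi k (1 - v) 1) * (u + v) =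
        (t * (u + v)) * Phi k (1 + u) 1 + ((1 - t) * (u + v)) * Phi k (1 - v) 1 := by ring
      rw [this, hut, ← hvt]
    rw [e3] at h2
    simp only [hf]
    linarith
  have hne : S.Nonempty := ⟨_, 1, one_pos, rfl⟩
  have hne' : S'.Nonempty := ⟨_, 1 / 2, by norm_num, by norm_num, rfl⟩
  obtain ⟨x₀, hx₀⟩ := hne
  obtain ⟨y₀, hy₀⟩ := hne'
  have hbdd : BddAbove S := ⟨y₀, fun x hx => hcmp x hx y₀ hy₀⟩
  have hbdd' : BddBelow S' := ⟨x₀, fun y hy => hcmp x₀ hx₀ y hy⟩
  set Pl : ℝ := sSup S with hPl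
  set Pu : ℝ := sInf S' with hPu
  have hle : Pl ≤ Pu := csSup_le ⟨x₀, hx₀⟩ fun x hx => le_csInf ⟨y₀, hy₀⟩ fun y hy => hcmp x hx y hy
  have hPl0 : 0 ≤ Pl := by
    refine le_trans ?_ (le_csSup hbdd ⟨1, one_pos, rfl⟩)
    rw [div_one]
    have := hP.mono 1 (1 + 1) 1 1 (by norm_num) le_rfl
    rw [hγ] at this
    simp only [hf]; linarith
  have hPuγ : Pu ≤ gam k := by
    refine le_trans (csInf_le hbdd' ⟨1 / 2, by norm_num, by norm_num, rfl⟩) ?_
    rw [div_le_iff₀ (by norm_num)]
    have h1 := hP.mono (1 - 1 / 2) (1 - 1 / 2) (1 / 2) 1 le_rfl (by norm_num)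
    have h2 := hP.hom (1 / 2) 1 1 (by norm_num) zero_le_one zero_le_one
    rw [hγ] at h2
    have e : Phi k (1 - 1 / 2) (1 / 2) = Phi k (1 / 2 * 1) (1 / 2 * 1) := by congr 1 <;> norm_num
    rw [e, h2] at h1
    simp only [hf]; linarith
  have hline : ∀ P : ℝ, Pl ≤ P → P ≤ Pu → ∀ a b : ℝ, 0 ≤ a → 0 ≤ b →
      Phi k a b ≤ P * a + (gam k - P) * b := by
    intro P h1 h2 a b ha hb
    rcases eq_or_lt_of_le hb with hb0 | hb0
    · rw [← hb0]
      have h3 := hP.le_left 0 a le_rfl ha
      rw [hP.comm] at h3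
      have : 0 ≤ P * a := mul_nonneg (by linarith) ha
      linarith
    · rcases eq_or_lt_of_le ha with ha0 | ha0
      · rw [← ha0]
        have h3 := hP.le_left 0 b le_rfl hb
        have : 0 ≤ (gam k - P) * b := mul_nonneg (by linarith) hb
        linarith
      · have e : Phi k a b = b * f (a / b) := by
          simp only [hf]
          rw [← hP.hom b (a / b) 1 hb (by positivity) zero_le_one]
          congr 1
          · field_simp
          · ring
        set x : ℝ := a / b with hx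
        have hx0 : 0 < x := by positivity
        have hax : a = b * x := by rw [hx]; field_simp
        have hfx : f x ≤ gam k + P * (x - 1) := by
          rcases lt_trichotomy x 1 with h | h | h
          · have h3 : Pu ≤ (gam k - f (1 - (1 - x))) / (1 - x) :=
              csInf_le hbdd' ⟨1 - x, by linarith, by linarith, rfl⟩
            have e2 : 1 - (1 - x) = x := by ring
            rw [e2, le_div_iff₀ (by linarith)] at h3
            have h4 : P * (1 - x) ≤ Pu * (1 - x) := mul_le_mul_of_nonneg_right h2 (by linarith)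
            linarith
          · rw [h]
            simp only [hf, hγ]; linarith
          · have h3 : (f (1 + (x - 1)) - gam k) / (x - 1) ≤ Pl :=
              le_csSup hbdd ⟨x - 1, by linarith, rfl⟩
            have e2 : 1 + (x - 1) = x := by ring
            rw [e2, div_le_iff₀ (by linarith)] at h3
            have h4 : Pl * (x - 1) ≤ P * (x - 1) := mul_le_mul_of_nonneg_right h1 (by linarith)
            linarith
        rw [e]
        have h5 := mul_le_mul_of_nonneg_left hfx hb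
        have e3 : P * a + (gam k - P) * b = b * (gam k + P * (x - 1)) := by rw [hax]; ring
        rw [e3]; exact h5
  have hlo := hline Pl le_rfl hle
  have hhi := hline Pu hle le_rfl
  have hγ1 := hP.gam_lt
  have hpos : 0 < Pl := by
    have h1 := hlo k 1 hk0.le zero_le_one
    rw [hP.comm, pri_sat hP] at h1
    by_contra hcon
    push Not at hcon
    nlinarith
  have hlt : Pu < gam k := by
    have h1 := hhi 1 k zero_le_one hk0.le
    rw [pri_sat hP] at h1
    by_contra hcon
    push Not at hcon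
    nlinarith
  refine ⟨Pl, Pu, hpos, hle, hlt, hlo, hhi, ?_, ?_, ?_, fun r hr => pri_gap hk hP r hr,
    pri_two hk hP _ hlt hhi⟩
  · intro ε hε
    obtain ⟨x, ⟨u, hu, rfl⟩, hx⟩ := exists_lt_of_lt_csSup ⟨x₀, hx₀⟩ (show Pl - ε < sSup S by
      rw [← hPl]; linarith)
    refine ⟨u, hu, ?_⟩
    rw [lt_div_iff₀ hu] at hx
    rw [hr, hγ]
    simp only [hf] at hx
    linarith
  · intro _ ε hε
    obtain ⟨x, ⟨u, hu, hu1, rfl⟩, hx⟩ := exists_lt_of_csInf_lt ⟨y₀, hy₀⟩ (show sInf S' < Pu + ε by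
      rw [← hPu]; linarith)
    refine ⟨u, hu, hu1, ?_⟩
    rw [div_lt_iff₀ hu] at hx
    rw [hγ]
    simp only [hf] at hx
    linarith
  · intro h; exact absurd hr (by linarith)

theorem stmt_PRI : Stmt_PRI := by
  intro k hk hP
  rcases eq_or_lt_of_le hP.rho_one with h | h
  · exact pri_triv hk hP h.symm
  · exact ⟨_, _, pri_cone hk hP h⟩

end

end Pool.Agent.LCSV
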